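import Pool.Agent.N869.ZE.Stm

/-!
# Project ZE (helper869), part A: 4-ranks of imaginary quadratic fields, coloured

`F` is a fixed finite set of odd primes (the prime divisors of `n₀`), `S` a set of odd primes not in `F`,
`γ` a colouring, `E : I → Finset Q` a family of sets of colours. The system `a` is good (`GdF F`) if the
class group of `ℚ(√(- ∏ (sys γ E S a ∪ F)))` has no element of order four. We show that the systems are
asymptotically independent, each with probability `c2 = ∏ (1 - 2^(-i))`, under any condition `P` on the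
numbers of primes of every colour and label which implies that the products are `3` modulo `4`.
-/

set_option autoImplicit false
set_option linter.unusedVariables false

open scoped Classical

namespace Pool.Agent.N869.ZE.A

open Finset
open Pool.Agent.Y703.CX (sm la jj XX eL zz kk)
open Pool.Agent.Y703.CQ (nr sg)
open Pool.Agent.N973.ND (uu)
open Pool.Agent.N916.GB (Po SA Gd)
open Pool.Agent.N869.QT.L (prs ext c2 Lc Fam S_LAC)
open Pool.Agent.N869.QT.G (sys exC pr Dep)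
open Pool.Agent.N869.ZE

/-! ### Linear algebra -/

section blocks

variable {U J : Type} [Fintype U] [Fintype J]

/-- all the solutions of the block system supported on the small primes in `W` and the large primes
in `L` are constant: `tU u = uu u`, `tJ k = uu (p k)`, `A u v = nr v u`, `B u k = nr (p k) u`,
`R k l = nr (p l) (p k)` -/
def GdK (W : Finset U) (L : Finset J) (tU : U → ZMod 2) (tJ : J → ZMod 2) (A : U → U → ZMod 2)
    (B : U → J → ZMod 2) (R : J → J → ZMod 2) : Prop :=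
  ∀ (c : U → ZMod 2) (d : J → ZMod 2),
    (∀ u ∈ W, ∑ v ∈ W, A u v * (c u + c v) + ∑ l ∈ L, B u l * (c u + d l) = 0) →
    (∀ k ∈ L, ∑ u ∈ W, (B u k + tU u * tJ k) * (d k + c u) + ∑ l ∈ L, R k l * (d k + d l) = 0) →
    (∀ u ∈ W, ∀ v ∈ W, c u = c v) ∧ (∀ u ∈ W, ∀ l ∈ L, c u = d l) ∧ ∀ k ∈ L, ∀ l ∈ L, d k = d l

/-- the hypotheses on the blocks: `g k` is the colour of the large prime `k` -/
structure HypK {I Q : Type} (K : ℕ) (W : I → Finset U) (E : I → Finset Q) (g : J → Q)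
    (tU : U → ZMod 2) (tJ : J → ZMod 2) (A : U → U → ZMod 2) (B : U → J → ZMod 2) : Prop where
  many : ∀ q : Q, K * (Fintype.card U + Nat.log 2 (Fintype.card J) + 1) ≤
    (univ.filter fun k => g k = q ∧ tJ k = 1).card
  par : ∀ a, ∑ u ∈ W a, tU u + ∑ k ∈ Lc E g a, tJ k = 1
  recip : ∀ u v, u ≠ v → A u v + A v u = tU u * tU v
  nd : ∀ (q : Q) (w : U → ZMod 2), (∃ u, w u ≠ 0) →
    ∃ k, g k = q ∧ tJ k = 0 ∧ ∑ u, w u * B u k ≠ 0
  dist : (∃ u, tU u = 1 ∧ ∀ a, u ∈ W a) ∨ ∃ q, ∀ a, q ∈ E a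

end blocks

/-- the probability that a random completion is good for all the systems is close to `c2 ^ #I` -/
def LAEK {I Q : Type} [Fintype I] (E : I → Finset Q) (ε : ℝ) (K : ℕ) : Prop :=
  ∀ (U J : Type) [Fintype U] [Fintype J] [LinearOrder J] (W : I → Finset U) (g : J → Q)
  (tU : U → ZMod 2) (tJ : J → ZMod 2) (A : U → U → ZMod 2) (B : U → J → ZMod 2),
  HypK K W E g tU tJ A B →
  |((univ.filter fun α : prs J → ZMod 2 =>
      ∀ a, GdK (W a) (Lc E g a) tU tJ A B (ext tJ α)).card : ℝ) /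
      2 ^ (prs J).card - c2 ^ Fintype.card I| ≤ ε

/-- the linear algebra for all families -/
def S_LAK : Prop := ∀ (I Q : Type) [Fintype I] [Fintype Q] (E : I → Finset Q), Fam E →
  ∀ ε : ℝ, 0 < ε → ∃ K : ℕ, LAEK E ε K

/-- ZE-A-LA: from the linear algebra of project QT. -/
def S_LAKQ : Prop := S_LAC → S_LAK

/-! ### The boxes -/

/-- the bilinear hypothesis -/
def PairK (P Q : Finset ℕ) (A B : ℕ) (κ : ℝ) : Prop :=
  ∀ c d : ℕ → ℂ, (∀ p, ‖c p‖ ≤ 1) → (∀ q, ‖d q‖ ≤ 1) →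
    ‖∑ p ∈ P, ∑ q ∈ Q, c p * d q * sg (nr p q)‖ ≤ κ * (A * B)

/-- the good sets -/
def GdF (F S : Finset ℕ) : Prop := Gd false 0 0 (S ∪ F)

/-- the labels of the large primes of every colour with respect to the small primes and the primes in
`F` are not degenerate, and there are many large primes `3` modulo `4` of every colour -/
def NdK {Q : Type} (F : Finset ℕ) (K : ℕ) (γ : ℕ → Q) (S₀ S₁ : Finset ℕ) : Prop :=
  ∀ q : Q, (∀ w : ℕ → ZMod 2, (∃ u ∈ S₀ ∪ F, w u ≠ 0) →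
    ∃ p ∈ S₁, γ p = q ∧ uu p = 0 ∧ ∑ u ∈ S₀ ∪ F, w u * nr p u ≠ 0) ∧
    K * ((S₀ ∪ F).card + Nat.log 2 S₁.card + 1) ≤ (S₁.filter fun p => γ p = q ∧ uu p = 1).card

/-- the condition on `P`: the primes in `F` do not occur, the products are `3` modulo `4` -/
def OkK {I Q V : Type} (F : Finset ℕ) (E : I → Finset Q) (lv : ℕ → V) (P : (Q × V → ℕ) → Prop) :
    Prop :=
  ∀ (γ : ℕ → Q) (S : Finset ℕ), (∀ p ∈ S, Po p) → P (cnt (lc γ lv) S) →
    Disjoint S F ∧ ∀ a, ∑ p ∈ sys γ E S a, uu p + ∑ p ∈ F, uu p = 1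

/-- ZE-A-BOX -/
def S_BOXK : Prop := ∀ (I Q : Type) [Fintype I] [Fintype Q] (E : I → Finset Q), Fam E →
  ∀ F : Finset ℕ, (∀ p ∈ F, Po p) → ((∃ u ∈ F, uu u = 1) ∨ ∃ q, ∀ a, q ∈ E a) →
  ∀ (ε : ℝ) (K : ℕ), LAEK E ε K → ∃ B : ℕ, ∀ (V : Type) [Fintype V] (lv : ℕ → V)
  (P : (Q × V → ℕ) → Prop), OkK F E lv P → ∀ γ : ℕ → Q,
  BoxA PairK (lc γ lv) P (NdK F K γ) (fun S => ∀ a, GdF F (sys γ E S a)) (c2 ^ Fintype.card I) ε B

/-- ZE-A-RARE: the labels are degenerate rarely. -/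
def S_RAREK : Prop := ∀ (Q : Type) [Fintype Q] [Nonempty Q] (F : Finset ℕ), (∀ p ∈ F, Po p) →
  ∀ (K : ℕ) (ε : ℝ), 0 < ε → ∃ X₀ : ℕ, ∀ X : ℕ, X₀ ≤ X →
  ∑ S ∈ (SA X).filter (fun S => S.card ≤ kk X ∧ Disjoint S F),
    pr S (fun γ : ℕ → Q => ¬ NdK F K γ (sm (zz X) S) (la (zz X) S)) ≤ ε * X

/-- the condition on the systems: the product is `3` modulo `4`; `tv v` is `1` if the primes with label
`v` are `3` modulo `4` -/
def AdK {V : Type} [Fintype V] (F : Finset ℕ) (tv : V → ZMod 2) (m : V → ℕ) : Prop :=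
  ∑ v, (m v : ZMod 2) * tv v + ∑ p ∈ F, uu p = 1

/-- ZE-A-ASY: the averages. -/
def S_ASYK : Prop := ∀ (V : Type) [Fintype V] (lv : ℕ → V) (tv : V → ZMod 2) (Bad : Set V)
  (F : Finset ℕ), (∀ p ∈ F, Po p ∧ lv p ∈ Bad) → (∀ p, Po p → uu p = tv (lv p)) →
  ∀ (I Q : Type) [Fintype I] [Fintype Q] [Nonempty Q] (E : I → Finset Q), Fam E →
  ((∃ u ∈ F, uu u = 1) ∨ ∃ q, ∀ a, q ∈ E a) → AsyE SA (GdF F) c2 lv (AdK F tv) Bad E

end Pool.Agent.N869.ZE.A
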