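import Pool.Agent.N869.ZE.Bas
import Pool.Agent.N869.ZE.A.Stm

/-!
# Project ZE, part A: the averages from the parts
-/

set_option autoImplicit false
set_option linter.unusedSectionVars false

open scoped Classical

namespace Pool.Agent.N869.ZE.A

open Finset
open Pool.Agent.Y703.CX (sm la jj XX eL zz kk)
open Pool.Agent.Y703.CQ (nr sg)
open Pool.Agent.N973.ND (uu)
open Pool.Agent.N916.GB (Po SA Gd S_BIL)
open Pool.Agent.N869.QT.L (prs ext c2 Lc Fam S_LAC)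
open Pool.Agent.N869.QT.G (sys exC pr Dep)
open Pool.Agent.N869.ZE

theorem sg_norm (a : ZMod 2) : ‖sg a‖ = 1 := by
  unfold sg
  split_ifs <;> simp

theorem card_le_of {P : Finset ℕ} {A : ℕ} (h : ∀ p ∈ P, Po p ∧ p ≤ A) : P.card ≤ A := by
  have h1 : P ⊆ Finset.Icc 1 A := fun p hp => by
    rw [mem_Icc]
    exact ⟨(h p hp).1.1.one_le, (h p hp).2⟩
  have := card_le_card h1
  rwa [Nat.card_Icc, Nat.add_sub_cancel] at this

/-- the trivial bound -/
theorem triv {P Q : Finset ℕ} {A B : ℕ} (hP : ∀ p ∈ P, Po p ∧ p ≤ A) (hQ : ∀ q ∈ Q, Po q ∧ q ≤ B)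
    (f : ℕ → ℕ → ℂ) (hf : ∀ p q, ‖f p q‖ ≤ 1) : ‖∑ p ∈ P, ∑ q ∈ Q, f p q‖ ≤ A * B := by
  have h1 : ‖∑ p ∈ P, ∑ q ∈ Q, f p q‖ ≤ ∑ p ∈ P, ∑ q ∈ Q, (1 : ℝ) :=
    (norm_sum_le _ _).trans (sum_le_sum fun p _ => (norm_sum_le _ _).trans
      (sum_le_sum fun q _ => hf p q))
  refine h1.trans ?_
  rw [sum_const, sum_const, nsmul_eq_mul, nsmul_eq_mul, mul_one]
  have h2 : (P.card : ℝ) ≤ A := by exact_mod_cast card_le_of hP
  have h3 : (Q.card : ℝ) ≤ B := by exact_mod_cast card_le_of hQ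
  gcongr

theorem bilK (h : S_BIL) : ∃ C : ℝ, BilA PairK C := by
  obtain ⟨C, hC, hb⟩ := h
  refine ⟨C, hC, fun P Q A B z κ hP hQ hd hz hA hB hκ hCκ c d hc hdd => ?_⟩
  have hf : ∀ p q, ‖c p * d q * sg (nr p q)‖ ≤ 1 := by
    intro p q
    rw [norm_mul, norm_mul, sg_norm, mul_one]
    exact mul_le_one₀ (hc p) (norm_nonneg _) (hdd q)
  rcases le_or_gt 1 κ with h1 | h1
  · refine (triv hP hQ _ hf).trans ?_
    have : (0 : ℝ) ≤ A * B := by positivity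
    nlinarith
  · have h2 := hb P Q A B z c d hP hQ hd hz hA hB hc hdd
    have hz0 : (0 : ℝ) < z := by exact_mod_cast hz
    have h3 : κ ^ 24 ≤ κ ^ 12 := pow_le_pow_of_le_one hκ h1.le (by norm_num)
    have h4 : C ≤ κ ^ 12 * z := hCκ.trans (by gcongr)
    have h5 : ‖∑ p ∈ P, ∑ q ∈ Q, c p * d q * sg (nr p q)‖ ^ 12 * z ≤
        (κ * (A * B)) ^ 12 * z := by
      refine h2.trans ?_
      have : (0 : ℝ) ≤ ((A : ℝ) * B) ^ 12 := by positivity
      calc C * ((A : ℝ) * B) ^ 12 ≤ (κ ^ 12 * z) * ((A : ℝ) * B) ^ 12 := by gcongr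
        _ = (κ * (A * B)) ^ 12 * z := by ring
    have h6 := le_of_mul_le_mul_right h5 hz0
    exact le_of_pow_le_pow_left₀ (by norm_num) (by positivity) h6

section main

variable {I Q V : Type} [Fintype I] [Fintype Q] [Nonempty Q] [Fintype V]

theorem okK {lv : ℕ → V} {tv : V → ZMod 2} {Bad : Set V} {F : Finset ℕ}
    (hF : ∀ p ∈ F, Po p ∧ lv p ∈ Bad) (htv : ∀ p, Po p → uu p = tv (lv p)) {E : I → Finset Q}
    {P : (Q × V → ℕ) → Prop} (hP : OkP E (AdK F tv) Bad P) : OkK F E lv P := by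
  intro γ S hS hPS
  obtain ⟨h1, h2⟩ := hP _ hPS
  refine ⟨?_, fun a => ?_⟩
  · rw [Finset.disjoint_left]
    intro p hp hpF
    exact cnt_zero γ lv S p hp (h2 (γ p) (lv p) (hF p hpF).2)
  · have h3 := h1 a
    unfold AdK at h3
    have h4 : ∑ v, (mrg E (cnt (lc γ lv) S) a v : ZMod 2) * tv v = ∑ p ∈ sys γ E S a, uu p := by
      have h5 : ∀ v, mrg E (cnt (lc γ lv) S) a v = cnt lv (sys γ E S a) v := fun v =>
        mrg_cnt γ lv E S a v
      simp only [h5]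
      rw [sum_cnt lv (sys γ E S a) tv]
      exact sum_congr rfl fun p hp => (htv p (hS p (mem_sys.1 hp).1)).symm
    rw [h4] at h3
    exact h3

theorem ndK_congr {F : Finset ℕ} {K : ℕ} {S₀ S₁ : Finset ℕ} {γ γ' : ℕ → Q}
    (h : ∀ p ∈ S₀ ∪ S₁, γ p = γ' p) : NdK F K γ S₀ S₁ ↔ NdK F K γ' S₀ S₁ := by
  have h1 : ∀ p ∈ S₁, γ p = γ' p := fun p hp => h p (mem_union_right _ hp)
  unfold NdK
  refine forall_congr' fun q => ?_
  have e1 : (S₁.filter fun p => γ p = q ∧ uu p = 1) = S₁.filter fun p => γ' p = q ∧ uu p = 1 :=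
    filter_congr fun p hp => by rw [h1 p hp]
  rw [e1]
  refine and_congr ?_ Iff.rfl
  refine forall_congr' fun w => forall_congr' fun _ => ?_
  constructor
  · rintro ⟨p, h2, h3, h4⟩
    exact ⟨p, h2, by rw [← h1 p h2]; exact h3, h4⟩
  · rintro ⟨p, h2, h3, h4⟩
    exact ⟨p, h2, by rw [h1 p h2]; exact h3, h4⟩

theorem gdF_congr {F : Finset ℕ} {E : I → Finset Q} {S : Finset ℕ} {γ γ' : ℕ → Q}
    (h : ∀ p ∈ S, γ p = γ' p) : (∀ a, GdF F (sys γ E S a)) ↔ ∀ a, GdF F (sys γ' E S a) :=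
  forall_congr' fun a => by rw [sys_congr h a]

end main

/-- **ZE-A-ASY.** -/
theorem t_ASYK (hA : S_ASYA) (hB : S_BIL) (hL : S_LAK) (hBx : S_BOXK) (hR : S_RAREK)
    (hc2 : 0 ≤ c2 ∧ c2 ≤ 1) : S_ASYK := by
  intro V _ lv tv Bad F hF htv I Q _ _ _ E hE hdist P hP ε hε
  obtain ⟨C, hC⟩ := bilK hB
  obtain ⟨K, hK⟩ := hL I Q E hE (ε / 3) (by linarith)
  obtain ⟨B, hBB⟩ := hBx I Q E hE F (fun p hp => (hF p hp).1) hdist (ε / 3) K hK
  have hok := okK hF htv hP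
  have hrare : RareA lv P (NdK F K) (ε / 3) := by
    obtain ⟨X₀, h0⟩ := hR Q F (fun p hp => (hF p hp).1) K (ε / 3) (by linarith)
    refine ⟨X₀, fun X hX => le_trans ?_ (h0 X hX)⟩
    have hsub : (SA X).filter (fun S => S.card ≤ kk X ∧ Disjoint S F) ⊆
        (SA X).filter (fun S => S.card ≤ kk X) := fun S hS => by
      rw [mem_filter] at hS ⊢
      exact ⟨hS.1, hS.2.1⟩
    have hz : ∀ S ∈ (SA X).filter (fun S => S.card ≤ kk X),
        S ∉ (SA X).filter (fun S => S.card ≤ kk X ∧ Disjoint S F) →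
        pr S (fun γ : ℕ → Q => P (cnt (lc γ lv) S) ∧ ¬ NdK F K γ (sm (zz X) S) (la (zz X) S)) = 0 := by
      intro S hS hS'
      rw [mem_filter] at hS hS'
      apply pr_false
      rintro γ ⟨h1, -⟩
      apply hS'
      refine ⟨hS.1, hS.2, ?_⟩
      have hSo : ∀ p ∈ S, Po p := by
        have := hS.1
        unfold SA at this
        rw [mem_filter] at this
        exact this.2.1
      exact (hok γ S hSo h1).1
    rw [← sum_subset hsub hz]
    refine sum_le_sum fun S _ => pr_mono fun γ h => h.2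
  obtain ⟨X₀, h0⟩ := hA Q V lv PairK C hC P (NdK F K) (fun γ S => ∀ a, GdF F (sys γ E S a))
    (c2 ^ Fintype.card I) (ε / 3) B (pow_nonneg hc2.1 _) (pow_le_one₀ hc2.1 hc2.2) (by linarith)
    (fun S γ γ' h => gdF_congr h) (fun S₀ S₁ γ γ' h => ndK_congr h)
    (fun γ => hBB V lv P hok γ) hrare
  refine ⟨X₀, fun X hX => (h0 X hX).trans ?_⟩
  have : 3 * (ε / 3) * (X : ℝ) = ε * X := by ring
  linarith

end Pool.Agent.N869.ZE.A
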