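import Pool.Agent.N869.ZE.A.TrP
import Pool.Agent.N869.ZE.A.Asy
import Pool.Agent.N9.ZE.KEYA
import Pool.Agent.N814.ZE.ASYA
import Pool.Agent.N196.ZE.LAKQ
import Pool.Agent.N475.ZE.BOXK
import Pool.Agent.N123.ZE.RAREK
import Pool.Agent.N322.ZE.SQ2
import Pool.Agent.N856.JL.Fin
import Pool.Agent.R426.QK.Fin
import Pool.Agent.R426.QJ.MOMJ
import Pool.Agent.N869.QT.L.LA1C
import Pool.Agent.N869.QT.L.LA3C
import Pool.Agent.N869.QT.L.LA4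
import Pool.Agent.N869.QT.L.LA2C

/-!
# Project ZE, part A: the assembly

Parts by helpers 9 (KEYA), 814 (ASYA), 322 (SQ2), 196 (LAKQ), 475 (BOXK), 123 (RAREK); bilinear sums
and counts of projects GB and JL (helpers 19, 502, 588, 763, 789, 814, 856, 916).
-/

set_option autoImplicit false

namespace Pool.Agent.N869.ZE.A

open Pool.Agent.N869.ZE
open Pool.Agent.N869.QT.L (c2 S_LAC)

theorem t_LAC : S_LAC :=
  Pool.Agent.N869.QT.L.LA4.t_LA4C Pool.Agent.R426.QJ.MOMJ.t_MOMJ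
    Pool.Agent.N869.QT.L.LA1C.t_LA1C Pool.Agent.N869.QT.L.LA2C.t_LA2C
    Pool.Agent.N869.QT.L.LA3C.t_LA3C

theorem c2_bd : 0 ≤ c2 ∧ c2 ≤ 1 := by
  obtain ⟨-, -, -, h3, h4⟩ := Pool.Agent.R426.QK.MOM.t_C2
  have h3' : (0.288 : ℝ) < c2 := h3
  have h4' : c2 < (0.289 : ℝ) := h4
  constructor <;> linarith

theorem t_ASYA : S_ASYA := Pool.Agent.N814.ZE.ASYA.t_ASYA Pool.Agent.N9.ZE.KEYA.t_KEYA

theorem t_AK : S_ASYK :=
  t_ASYK t_ASYA Pool.Agent.N19.GB.t_BIL (Pool.Agent.N196.ZE.LAKQ.t_LAKQ t_LAC)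
    Pool.Agent.N475.ZE.BOXK.t_BOXK Pool.Agent.N123.ZE.RAREK.t_RAREK c2_bd

theorem t_M : ManyS :=
  manyS Pool.Agent.N814.JL.FEW.t_FEWQ Pool.Agent.Y488.CX.t_SIE Pool.Agent.N814.JL.MER.t_MEQ

end Pool.Agent.N869.ZE.A
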