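import Pool.Agent.N869.ZE.Bas
import Pool.Agent.N869.ZE.A.Stm

/-!
# Project ZE, part A: the colour layer

`v q` is the vector of the colour `q`, `lb p` the label of `p` modulo squares. The class `Cl` consists of the
colourings for which the sums of the labels are prescribed for every coordinate.
-/

set_option autoImplicit false
set_option linter.unusedSectionVars false
set_option linter.unusedVariables false

open scoped Classical

namespace Pool.Agent.N869.ZE.A

open Finset
open Pool.Agent.N869.QT.G (sys exC pr Dep)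
open Pool.Agent.N869.ZE

variable {R Q : Type} {m r : ℕ}

/-- the class: no bad element occurs, and the sums of the labels are given -/
def Cl (lb : R → Fin r → ZMod 2) (bad : Set R) (v : Q → Fin m → ZMod 2)
    (t : Fin m → Fin r → ZMod 2) (γ : R → Q) (S : Finset R) : Prop :=
  (∀ p ∈ S, p ∉ bad) ∧ ∀ i j, ∑ p ∈ S, v (γ p) i * lb p j = t i j

/-- every vector is a sum of `k` vectors of colours -/
def Cov (k : ℕ) (v : Q → Fin m → ZMod 2) : Prop :=
  ∀ x : Fin m → ZMod 2, ∃ q : Fin k → Q, ∀ i, ∑ s, v (q s) i = x i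

/-- there are `k` elements with each of the basis labels -/
def Many (k : ℕ) (lb : R → Fin r → ZMod 2) (S : Finset R) : Prop :=
  ∀ j : Fin r, k ≤ (S.filter fun p => lb p = Pi.single j 1).card

theorem exC_ap [Nonempty Q] {S : Finset R} {c : S → Q} {p : R} (h : p ∈ S) :
    exC S c p = c ⟨p, h⟩ := by
  unfold exC
  rw [dif_pos h]

theorem single_inj {i j : Fin r} (h : (Pi.single i 1 : Fin r → ZMod 2) = Pi.single j 1) : i = j := by
  by_contra hij
  have h1 := congrFun h i
  rw [Pi.single_eq_same, Pi.single_eq_of_ne hij] at h1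
  exact absurd h1 (by decide)

/-- the number of the colourings in the class -/
theorem card_cl [Fintype Q] [Nonempty Q] {k : ℕ} {lb : R → Fin r → ZMod 2} {bad : Set R}
    {v : Q → Fin m → ZMod 2} (t : Fin m → Fin r → ZMod 2) {S : Finset R} (hb : ∀ p ∈ S, p ∉ bad)
    (hv : Cov k v) (hk : Many k lb S) :
    Fintype.card Q ^ S.card ≤
      (univ.filter fun c : S → Q => Cl lb bad v t (exC S c) S).card * Fintype.card Q ^ (r * k) := by
  -- the special elements
  have h1 : ∀ j : Fin r, ∃ e : Fin k → S, Function.Injective e ∧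
      ∀ s, lb (e s) = Pi.single j 1 := by
    intro j
    obtain ⟨T, hT, hTc⟩ := exists_subset_card_eq (hk j)
    let e0 : Fin k ≃ T := (T.equivFinOfCardEq hTc).symm
    refine ⟨fun s => ⟨(e0 s : R), (mem_filter.1 (hT (e0 s).2)).1⟩, fun a b h => ?_, fun s =>
      (mem_filter.1 (hT (e0 s).2)).2⟩
    have h2 : (e0 a : R) = (e0 b : R) := congrArg (fun x : S => (x : R)) h
    exact e0.injective (Subtype.ext h2)
  choose e he hl using h1
  let P : Fin r × Fin k → S := fun x => e x.1 x.2
  have hP : Function.Injective P := by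
    rintro ⟨j, s⟩ ⟨j', s'⟩ h
    have h2 : e j s = e j' s' := h
    have h3 : (Pi.single j 1 : Fin r → ZMod 2) = Pi.single j' 1 := by
      rw [← hl j s, ← hl j' s', h2]
    obtain rfl := single_inj h3
    rw [he j h2]
  -- the correction
  let w : (S → Q) → Fin r → Fin m → ZMod 2 := fun c j i =>
    t i j - ∑ p ∈ univ.filter (fun p : S => p ∉ Set.range P), v (c p) i * lb p j
  have h2 : ∀ (c : S → Q) (j : Fin r), ∃ q : Fin k → Q, ∀ i, ∑ s, v (q s) i = w c j i :=
    fun c j => hv (w c j)
  choose qq hqq using h2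
  let Φ : (S → Q) → (S → Q) := fun c => Function.extend P (fun x => qq c x.1 x.2) c
  have hΦP : ∀ c x, Φ c (P x) = qq c x.1 x.2 := fun c x => hP.extend_apply _ _ x
  have hΦn : ∀ c p, p ∉ Set.range P → Φ c p = c p := fun c p hp =>
    Function.extend_apply' _ _ _ hp
  have hΦ : ∀ c, Cl lb bad v t (exC S (Φ c)) S := by
    intro c
    refine ⟨hb, fun i j => ?_⟩
    have e1 : ∑ p ∈ S, v (exC S (Φ c) p) i * lb p j = ∑ p : S, v (Φ c p) i * lb p j := by
      rw [← sum_coe_sort S]
      refine sum_congr rfl fun p _ => ?_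
      rw [exC_ap p.2]
    have e2 : ∑ p : S, v (Φ c p) i * lb p j =
        ∑ p ∈ univ.filter (fun p : S => p ∈ Set.range P), v (Φ c p) i * lb p j +
        ∑ p ∈ univ.filter (fun p : S => p ∉ Set.range P), v (Φ c p) i * lb p j :=
      (sum_filter_add_sum_filter_not _ _ _).symm
    have e3 : ∑ p ∈ univ.filter (fun p : S => p ∉ Set.range P), v (Φ c p) i * lb p j =
        ∑ p ∈ univ.filter (fun p : S => p ∉ Set.range P), v (c p) i * lb p j := by
      refine sum_congr rfl fun p hp => ?_
      rw [hΦn c p (mem_filter.1 hp).2]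
    have e4 : univ.filter (fun p : S => p ∈ Set.range P) = univ.image P := by
      ext p
      rw [mem_filter, mem_image]
      constructor
      · rintro ⟨-, x, hx⟩
        exact ⟨x, mem_univ _, hx⟩
      · rintro ⟨x, -, hx⟩
        exact ⟨mem_univ _, x, hx⟩
    have e5 : ∑ p ∈ univ.filter (fun p : S => p ∈ Set.range P), v (Φ c p) i * lb p j = w c j i := by
      rw [e4, sum_image fun a _ b _ h => hP h, Fintype.sum_prod_type]
      rw [← hqq c j i]
      have e6 : ∀ j' : Fin r, ∑ s : Fin k, v (Φ c (P (j', s))) i * lb (P (j', s)) j =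
          if j' = j then ∑ s, v (qq c j s) i else 0 := by
        intro j'
        split_ifs with hj
        · subst hj
          refine sum_congr rfl fun s _ => ?_
          rw [hΦP, hl, Pi.single_eq_same, mul_one]
        · refine sum_eq_zero fun s _ => ?_
          have : lb (P (j', s)) = Pi.single j' 1 := hl j' s
          rw [this, Pi.single_eq_of_ne (Ne.symm hj), mul_zero]
      rw [sum_congr rfl fun j' _ => e6 j', sum_ite_eq' univ j, if_pos (mem_univ j)]
    rw [e1, e2, e3, e5]
    exact sub_add_cancel _ _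
  have hinj : Function.Injective fun c : S → Q => (Φ c, fun x : Fin r × Fin k => c (P x)) := by
    intro c c' h
    rw [Prod.mk.injEq] at h
    funext p
    by_cases hp : p ∈ Set.range P
    · obtain ⟨x, rfl⟩ := hp
      exact congrFun h.2 x
    · rw [← hΦn c p hp, ← hΦn c' p hp, h.1]
  have h5 := card_le_card_of_injOn (s := (univ : Finset (S → Q)))
    (t := (univ.filter fun c : S → Q => Cl lb bad v t (exC S c) S) ×ˢ
      (univ : Finset (Fin r × Fin k → Q)))
    (fun c : S → Q => (Φ c, fun x : Fin r × Fin k => c (P x))) (fun c _ => by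
      rw [mem_coe, mem_product, mem_filter]
      exact ⟨⟨mem_univ _, hΦ c⟩, mem_univ _⟩) (fun a _ b _ h => hinj h)
  rw [card_product, card_univ, card_univ, Fintype.card_fun, Fintype.card_coe, Fintype.card_fun,
    Fintype.card_prod, Fintype.card_fin, Fintype.card_fin] at h5
  exact h5

theorem pr_cl [Fintype Q] [Nonempty Q] {k : ℕ} {lb : R → Fin r → ZMod 2} {bad : Set R}
    {v : Q → Fin m → ZMod 2} (t : Fin m → Fin r → ZMod 2) {S : Finset R} (hb : ∀ p ∈ S, p ∉ bad)
    (hv : Cov k v) (hk : Many k lb S) :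
    1 / (Fintype.card Q : ℝ) ^ (r * k) ≤ pr S fun γ : R → Q => Cl lb bad v t γ S := by
  have h := card_cl t hb hv hk
  have hq : (0 : ℝ) < Fintype.card Q := by exact_mod_cast Fintype.card_pos
  unfold pr
  rw [div_le_div_iff₀ (by positivity) (by positivity), one_mul]
  exact_mod_cast h

/-- degenerate colourings -/
theorem pr_deg [Fintype Q] [Nonempty Q] {I : Type} [Fintype I] (E : I → Finset Q)
    (hE : ∀ a, (E a).Nonempty) (S : Finset R) :
    pr S (fun γ : R → Q => ∃ a, sys γ E S a = ∅) ≤
      Fintype.card I * (((Fintype.card Q : ℝ) - 1) / Fintype.card Q) ^ S.card := by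
  have hq0 : 0 < Fintype.card Q := Fintype.card_pos
  have hq : (0 : ℝ) < Fintype.card Q := by exact_mod_cast hq0
  have h1 : (univ.filter fun c : S → Q => ∃ a, sys (exC S c) E S a = ∅) ⊆
      (univ : Finset I).biUnion fun a => Fintype.piFinset fun _ : S => univ \ E a := by
    intro c hc
    rw [mem_filter] at hc
    obtain ⟨-, a, ha⟩ := hc
    rw [mem_biUnion]
    refine ⟨a, mem_univ _, ?_⟩
    rw [Fintype.mem_piFinset]
    intro p
    rw [mem_sdiff]
    refine ⟨mem_univ _, fun h => ?_⟩
    have : p.1 ∈ sys (exC S c) E S a := by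
      refine mem_sys.2 ⟨p.2, ?_⟩
      rw [exC_ap p.2]
      exact h
    rw [ha] at this
    exact absurd this (notMem_empty _)
  have h2 : ∀ a : I, (Fintype.piFinset fun _ : S => (univ : Finset Q) \ E a).card ≤
      (Fintype.card Q - 1) ^ S.card := by
    intro a
    rw [Fintype.card_piFinset, prod_const, card_univ, Fintype.card_coe]
    refine Nat.pow_le_pow_left ?_ _
    rw [card_sdiff_of_subset (subset_univ _), card_univ]
    have := (hE a).card_pos
    omega
  have h3 := (card_le_card h1).trans card_biUnion_le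
  have h4 : (univ.filter fun c : S → Q => ∃ a, sys (exC S c) E S a = ∅).card ≤
      Fintype.card I * (Fintype.card Q - 1) ^ S.card := by
    refine h3.trans ((sum_le_sum fun a _ => h2 a).trans ?_)
    rw [sum_const, card_univ, smul_eq_mul]
  unfold pr
  rw [div_le_iff₀ (by positivity), mul_assoc, div_pow, div_mul_cancel₀ _ (by positivity)]
  have h5 : (((univ.filter fun c : S → Q => ∃ a, sys (exC S c) E S a = ∅).card : ℕ) : ℝ) ≤
      ((Fintype.card I * (Fintype.card Q - 1) ^ S.card : ℕ) : ℝ) := by exact_mod_cast h4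
  push_cast [Nat.cast_sub (show 1 ≤ Fintype.card Q from hq0)] at h5
  refine le_trans (le_of_eq ?_) h5
  exact congrArg (fun x : ℕ => (x : ℝ)) (filter_card_inst _ _ _ _)

/-! ### The labels -/

/-- the label, with a mark for the bad elements -/
noncomputable def lvB (lb : R → Fin r → ZMod 2) (bad : Set R) (p : R) : (Fin r → ZMod 2) × Bool :=
  (lb p, decide (p ∈ bad))

/-- the class in terms of the numbers of labels -/
def PB [Fintype Q] (v : Q → Fin m → ZMod 2) (t : Fin m → Fin r → ZMod 2)
    (n : Q × ((Fin r → ZMod 2) × Bool) → ℕ) : Prop :=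
  (∀ q x, n (q, (x, true)) = 0) ∧
    ∀ i j, ∑ l : Q × ((Fin r → ZMod 2) × Bool), (n l : ZMod 2) * (v l.1 i * l.2.1 j) = t i j

theorem PB_iff [Fintype Q] (lb : R → Fin r → ZMod 2) (bad : Set R) (v : Q → Fin m → ZMod 2)
    (t : Fin m → Fin r → ZMod 2) (γ : R → Q) (S : Finset R) :
    PB v t (cnt (lc γ (lvB lb bad)) S) ↔ Cl lb bad v t γ S := by
  unfold PB Cl
  refine and_congr ?_ ?_
  · constructor
    · intro h p hp hpb
      refine cnt_zero γ (lvB lb bad) S p hp ?_
      have : lvB lb bad p = (lb p, true) := by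
        unfold lvB
        rw [decide_eq_true hpb]
      rw [this]
      exact h _ _
    · intro h q x
      unfold cnt
      simp only [card_eq_zero, filter_eq_empty_iff]
      intro p hp h1
      have h2 : decide (p ∈ bad) = true := congrArg (fun z => z.2.2) h1
      exact h p hp (of_decide_eq_true h2)
  · refine forall_congr' fun i => forall_congr' fun j => ?_
    have h := sum_cnt (lc γ (lvB lb bad)) S
      (fun l : Q × ((Fin r → ZMod 2) × Bool) => v l.1 i * l.2.1 j)
    rw [h]
    rfl

/-- the parity of the systems -/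
theorem okP [Fintype Q] {I : Type} {E : I → Finset Q} {v : Q → Fin m → ZMod 2}
    {t : Fin m → Fin (r + 1) → ZMod 2} {l : I → Fin m → ZMod 2}
    (hE : ∀ a q, q ∈ E a ↔ ∑ i, l a i * v q i = 1) {F : Finset ℕ}
    (ht : ∀ a, ∑ i, l a i * t i 0 + ∑ p ∈ F, Pool.Agent.N973.ND.uu p = 1) :
    OkP E (AdK F fun x : (Fin (r + 1) → ZMod 2) × Bool => x.1 0) {x | x.2 = true} (PB v t) := by
  rintro n ⟨h1, h2⟩
  refine ⟨fun a => ?_, fun q x hx => ?_⟩
  · unfold AdK
    rw [← ht a]
    congr 1
    have e1 : ∀ q, (if q ∈ E a then (1 : ZMod 2) else 0) = ∑ i, l a i * v q i := by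
      intro q
      split_ifs with h
      · exact ((hE a q).1 h).symm
      · have h3 : ∑ i, l a i * v q i ≠ 1 := fun h4 => h ((hE a q).2 h4)
        revert h3
        generalize ∑ i, l a i * v q i = z
        revert z
        decide
    have e2 : ∀ x : (Fin (r + 1) → ZMod 2) × Bool, (mrg E n a x : ZMod 2) * x.1 0 =
        ∑ q, (n (q, x) : ZMod 2) * ((∑ i, l a i * v q i) * x.1 0) := by
      intro x
      unfold mrg
      rw [Nat.cast_sum, sum_mul]
      have e3 : ∀ q, (n (q, x) : ZMod 2) * ((∑ i, l a i * v q i) * x.1 0) =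
          if q ∈ E a then (n (q, x) : ZMod 2) * x.1 0 else 0 := by
        intro q
        rw [← e1 q]
        split_ifs <;> ring
      rw [sum_congr rfl fun q _ => e3 q, ← sum_filter]
      refine sum_congr ?_ fun _ _ => rfl
      ext q
      rw [mem_filter]
      exact ⟨fun h => ⟨mem_univ _, h⟩, fun h => h.2⟩
    rw [sum_congr rfl fun x _ => e2 x, sum_comm, ← Fintype.sum_prod_type
      (f := fun z : Q × ((Fin (r + 1) → ZMod 2) × Bool) =>
        (n z : ZMod 2) * ((∑ i, l a i * v z.1 i) * z.2.1 0))]
    have e4 : ∀ z : Q × ((Fin (r + 1) → ZMod 2) × Bool),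
        (n z : ZMod 2) * ((∑ i, l a i * v z.1 i) * z.2.1 0) =
          ∑ i, l a i * ((n z : ZMod 2) * (v z.1 i * z.2.1 0)) := by
      intro z
      rw [sum_mul, mul_sum]
      exact sum_congr rfl fun i _ => by ring
    rw [sum_congr rfl fun z _ => e4 z, sum_comm]
    refine sum_congr rfl fun i _ => ?_
    rw [← mul_sum, h2 i 0]
  · obtain ⟨x1, x2⟩ := x
    have hx' : x2 = true := hx
    subst hx'
    exact h1 q x1

end Pool.Agent.N869.ZE.A
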