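import Pool.Agent.N869.ZE.A.Fam

/-!
# Project ZE, part A: the colours for fields and for pairs of a curve and a field
-/

set_option autoImplicit false
set_option linter.unusedSectionVars false
set_option linter.unusedVariables false

open scoped Classical

namespace Pool.Agent.N869.ZE.A

open Finset Filter Topology
open Pool.Agent.N973.ND (uu)
open Pool.Agent.N916.GB (Po SA Gd)
open Pool.Agent.N856.JL (S_FEWQ S_MEQ)
open Pool.Agent.Y703.CX (sm la zz S_SIE)
open Pool.Agent.N869.QT.L (c2 Fam)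
open Pool.Agent.N869.QT.G (sys exC pr Dep)
open Pool.Agent.N869.ZE

/-! ### Many primes of each label -/

theorem lb_of {p a : ℕ} (h : p % 60 = a % 60) (j : Fin 3)
    (ha : a = ![31, 41, 13] j) : lb p = Pi.single j 1 := by
  subst ha
  funext i
  fin_cases j <;> fin_cases i <;> simp only [Fin.zero_eta, Fin.isValue, Fin.mk_one,
    Fin.reduceFinMk, Matrix.cons_val_zero, Matrix.cons_val_one, Matrix.cons_val] at h ⊢
  · rw [lb0, Pi.single_eq_same]
    unfold Pool.Agent.N973.ND.uu
    exact if_pos (by omega)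
  · rw [lb1, Pi.single_eq_of_ne (by decide)]
    exact if_neg (by omega)
  · rw [lb2, Pi.single_eq_of_ne (by decide)]
    exact if_neg (by omega)
  · rw [lb0, Pi.single_eq_of_ne (by decide)]
    unfold Pool.Agent.N973.ND.uu
    exact if_neg (by omega)
  · rw [lb1, Pi.single_eq_same]
    exact if_pos (by omega)
  · rw [lb2, Pi.single_eq_of_ne (by decide)]
    exact if_neg (by omega)
  · rw [lb0, Pi.single_eq_of_ne (by decide)]
    unfold Pool.Agent.N973.ND.uu
    exact if_neg (by omega)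
  · rw [lb1, Pi.single_eq_of_ne (by decide)]
    exact if_neg (by omega)
  · rw [lb2, Pi.single_eq_same]
    exact if_pos (by omega)

/-- many primes of each label -/
def ManyS : Prop := ∀ (j : Fin 3) (k : ℕ) (ε : ℝ), 0 < ε → ∃ X₀ : ℕ, ∀ X : ℕ, X₀ ≤ X →
    (((SA X).filter fun S => (S.filter fun p => lb p = Pi.single j 1).card < k).card : ℝ) ≤ ε * X

theorem manyS (hF : S_FEWQ) (hS : S_SIE) (hM : S_MEQ) : ManyS := by
  intro j k ε hε
  obtain ⟨X₀, h0⟩ := hF hS hM 60 (![31, 41, 13] j) (by norm_num)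
    (by fin_cases j <;> (simp; try norm_num)) 0 k ε hε
  refine ⟨X₀, fun X hX => le_trans (Nat.cast_le.2 (card_le_card fun S hS => ?_)) (h0 X hX)⟩
  rw [mem_filter] at hS ⊢
  refine ⟨hS.1, lt_of_le_of_lt (card_le_card fun p hp => ?_) (lt_of_lt_of_le hS.2 (by omega))⟩
  rw [mem_filter] at hp ⊢
  exact ⟨(mem_filter.1 hp.1).1, lb_of hp.2 j rfl⟩

/-! ### Vectors -/

section vec

variable {n : ℕ}

/-- the indicator -/
noncomputable def ind (T : Finset (Fin n)) (i : Fin n) : ZMod 2 := if i ∈ T then 1 else 0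

theorem sum_ind (T : Finset (Fin n)) (w : Fin n → ZMod 2) :
    ∑ i, ind T i * w i = ∑ i ∈ T, w i := by
  unfold ind
  simp only [ite_mul, one_mul, zero_mul]
  rw [← sum_filter]
  refine sum_congr ?_ fun _ _ => rfl
  ext i
  rw [mem_filter]
  exact ⟨fun h => h.2, fun h => ⟨mem_univ _, h⟩⟩

theorem sum_single (T : Finset (Fin n)) (i : Fin n) :
    ∑ j ∈ T, (Pi.single i 1 : Fin n → ZMod 2) j = 1 ↔ i ∈ T := by
  have h : ∑ j ∈ T, (Pi.single i 1 : Fin n → ZMod 2) j = if i ∈ T then 1 else 0 := by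
    simp [Pi.single_apply, Finset.sum_ite_eq']
  rw [h]
  split_ifs with h1
  · exact ⟨fun _ => h1, fun _ => rfl⟩
  · exact ⟨fun h2 => absurd h2 (by decide), fun h2 => absurd h2 h1⟩

theorem single_ne (i : Fin n) : (Pi.single i 1 : Fin n → ZMod 2) ≠ 0 := by
  intro h
  have := congrFun h i
  rw [Pi.single_eq_same, Pi.zero_apply] at this
  exact absurd this (by decide)

/-- every vector is the sum of two nonzero vectors -/
theorem two_sum (hn : 2 ≤ n) (x : Fin n → ZMod 2) :
    ∃ u w : Fin n → ZMod 2, u ≠ 0 ∧ w ≠ 0 ∧ u + w = x := by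
  have hij : (⟨0, by omega⟩ : Fin n) ≠ ⟨1, by omega⟩ := by
    intro h
    have := congrArg Fin.val h
    simp at this
  set i : Fin n := ⟨0, by omega⟩ with hi
  set j : Fin n := ⟨1, by omega⟩ with hj
  by_cases h : x = Pi.single i 1
  · refine ⟨Pi.single j 1, x - Pi.single j 1, single_ne j, fun h2 => ?_, by abel⟩
    have h3 : x = Pi.single j 1 := sub_eq_zero.1 h2
    rw [h] at h3
    exact hij (single_inj h3)
  · refine ⟨Pi.single i 1, x - Pi.single i 1, single_ne i, fun h2 => ?_, by abel⟩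
    exact h (sub_eq_zero.1 h2)

/-- a nonzero vector with sum zero over `T` -/
theorem zero_sum (hn : 2 ≤ n) (T : Finset (Fin n)) :
    ∃ w : Fin n → ZMod 2, w ≠ 0 ∧ ∑ i ∈ T, w i ≠ 1 := by
  have hij : (⟨0, by omega⟩ : Fin n) ≠ ⟨1, by omega⟩ := by
    intro h
    have := congrArg Fin.val h
    simp at this
  set i : Fin n := ⟨0, by omega⟩ with hi
  set j : Fin n := ⟨1, by omega⟩ with hj
  by_cases h1 : i ∈ T
  · by_cases h2 : j ∈ T
    · refine ⟨Pi.single i 1 + Pi.single j 1, fun h => ?_, fun h => ?_⟩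
      · have h3 := congrFun h i
        rw [Pi.add_apply, Pi.single_eq_same, Pi.single_eq_of_ne hij, Pi.zero_apply] at h3
        exact absurd h3 (by decide)
      · have h3 : ∑ k ∈ T, (Pi.single i 1 + Pi.single j 1 : Fin n → ZMod 2) k =
            ∑ k ∈ T, (Pi.single i 1 : Fin n → ZMod 2) k +
              ∑ k ∈ T, (Pi.single j 1 : Fin n → ZMod 2) k := by
          rw [← sum_add_distrib]
          rfl
        rw [h3, (sum_single T i).2 h1, (sum_single T j).2 h2] at h
        exact absurd h (by decide)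
    · exact ⟨Pi.single j 1, single_ne j, fun h => h2 ((sum_single T j).1 h)⟩
  · exact ⟨Pi.single i 1, single_ne i, fun h => h1 ((sum_single T i).1 h)⟩

end vec

/-! ### The colours for the fields -/

/-- the nonzero vectors -/
abbrev QF (n : ℕ) : Type := {w : Fin n → ZMod 2 // w ≠ 0}

/-- the colours that meet `T` in an odd number of elements -/
noncomputable def EF {n : ℕ} (T : Finset (Fin n)) : Finset (QF n) :=
  univ.filter fun q => ∑ i ∈ T, q.1 i = 1

theorem mem_EF {n : ℕ} {T : Finset (Fin n)} {q : QF n} : q ∈ EF T ↔ ∑ i ∈ T, q.1 i = 1 := by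
  unfold EF
  rw [mem_filter]
  exact ⟨fun h => h.2, fun h => ⟨mem_univ _, h⟩⟩

/-- the bad primes -/
def bd (n₀ : ℕ) : Set ℕ := {p | p = 3 ∨ p = 5 ∨ p ∣ n₀}

instance {n : ℕ} [h : Fact (2 ≤ n)] : Nonempty (QF n) :=
  ⟨⟨Pi.single ⟨0, by have := h.out; omega⟩ 1, single_ne _⟩⟩

theorem covF {n : ℕ} (hn : 2 ≤ n) : Cov 2 (fun q : QF n => q.1) := by
  intro x
  obtain ⟨u, w, hu, hw, h⟩ := two_sum hn x
  refine ⟨![⟨u, hu⟩, ⟨w, hw⟩], fun i => ?_⟩
  rw [Fin.sum_univ_two, ← h]
  rfl

/-- the data for the fields -/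
noncomputable def DF (hM : ManyS) {n : ℕ} (hn : 2 ≤ n) {n₀ : ℕ} (hn0 : Squarefree n₀)
    (h23 : n₀ % 60 = 23 ∨ n₀ % 60 = 47) (𝒯 : Finset (Finset (Fin n))) (h𝒯 : ∀ T ∈ 𝒯, T.Nonempty) :
    Dat 𝒯 {T : Finset (Fin n) // T.Nonempty} (QF n) n 2 where
  v := fun q => q.1
  t := fun _ _ => 0
  l := fun T => ind T.1
  E := fun T => EF T.1
  hE := fun T q => by rw [mem_EF, sum_ind]
  fam :=
    { inj := fun T T' h => by
        refine Subtype.ext ?_
        ext i
        have h' : EF T.1 = EF T'.1 := h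
        rw [← sum_single T.1 i, ← sum_single T'.1 i,
          ← mem_EF (q := ⟨Pi.single i 1, single_ne i⟩), h', mem_EF]
      ne := fun T => by
        obtain ⟨i, hi⟩ := h𝒯 T.1 T.2
        exact ⟨⟨Pi.single i 1, single_ne i⟩, mem_EF.2 ((sum_single T.1 i).2 hi)⟩ }
  nu := fun T h => by
    obtain ⟨w, hw, hs⟩ := zero_sum hn T.1
    have h1 : (⟨w, hw⟩ : QF n) ∈ EF T.1 := by
      rw [h]
      exact mem_univ _
    exact hs (mem_EF.1 h1)
  F := n₀.primeFactors
  bad := bd n₀
  lb := lb
  hF := fun p hp => by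
    have h30 := c30_of (twist_c30 h23) p hp
    refine ⟨⟨Nat.prime_of_mem_primeFactors hp, ?_⟩, Or.inr (Or.inr (Nat.dvd_of_mem_primeFactors hp))⟩
    rintro rfl
    have := h30.1
    omega
  h0 := fun p _ => rfl
  ht := fun T => by
    have h1 := (twist_iff hn0 (twist_c30 h23)).1 h23 0
    have h2 : ∑ p ∈ n₀.primeFactors, uu p = 1 := h1
    rw [h2]
    simp
  dist := by
    left
    have h1 := (twist_iff hn0 (twist_c30 h23)).1 h23 0
    by_contra hcon
    push Not at hcon
    have h2 : ∑ p ∈ n₀.primeFactors, lb p 0 = 0 := by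
      refine sum_eq_zero fun p hp => ?_
      have h3 := hcon p hp
      rw [lb0]
      revert h3
      generalize uu p = z
      revert z
      decide
    rw [h2] at h1
    exact absurd h1 (by decide)
  k := 2
  cov := covF hn
  many := hM
  E' := fun T => EF T.1
  ne' := fun T => by
    obtain ⟨i, hi⟩ := T.2
    exact ⟨⟨Pi.single i 1, single_ne i⟩, mem_EF.2 ((sum_single T.1 i).2 hi)⟩

/-! ### The colours for the pairs -/

/-- the colours: `w 0 = 1` for the primes of `D`; `b` says that all the primes are used -/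
abbrev QP (b : Bool) (n : ℕ) : Type :=
  {w : Fin (n + 1) → ZMod 2 // (w 0 = 0 ∨ ∀ i : Fin n, w i.succ = 0) ∧ (b = true → w ≠ 0)}

/-- the colour of the primes of `D` -/
def e0 (b : Bool) (n : ℕ) : QP b n :=
  ⟨Pi.single 0 1, Or.inr fun i => Pi.single_eq_of_ne (Fin.succ_ne_zero i) 1, fun _ => single_ne _⟩

instance {b : Bool} {n : ℕ} : Nonempty (QP b n) := ⟨e0 b n⟩

/-- the colour of a nonzero vector -/
def cf (b : Bool) {n : ℕ} (w : Fin n → ZMod 2) (hw : b = true → w ≠ 0) : QP b n :=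
  ⟨Fin.cons 0 w, Or.inl rfl, fun hb h => hw hb (funext fun i => by
    have := congrFun h i.succ
    rwa [Fin.cons_succ] at this)⟩

theorem e0_succ (b : Bool) {n : ℕ} (i : Fin n) : (e0 b n).1 i.succ = 0 := by
  show (Pi.single 0 1 : Fin (n + 1) → ZMod 2) i.succ = 0
  exact Pi.single_eq_of_ne (Fin.succ_ne_zero i) 1

theorem e0_zero (b : Bool) (n : ℕ) : (e0 b n).1 0 = 1 := by
  show (Pi.single 0 1 : Fin (n + 1) → ZMod 2) 0 = 1
  exact Pi.single_eq_same _ _

theorem cf_succ (b : Bool) {n : ℕ} (w : Fin n → ZMod 2) (hw : b = true → w ≠ 0) (i : Fin n) :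
    (cf b w hw).1 i.succ = w i := by
  show (Fin.cons 0 w : Fin (n + 1) → ZMod 2) i.succ = w i
  exact Fin.cons_succ _ _ _

/-- the colours of the system `T`: the primes which divide `D ∏_{i ∈ T} d_i` exactly -/
noncomputable def EP (b : Bool) {n : ℕ} (T : Finset (Fin n)) : Finset (QP b n) :=
  univ.filter fun q => q.1 0 + ∑ i ∈ T, q.1 i.succ = 1

theorem mem_EP {b : Bool} {n : ℕ} {T : Finset (Fin n)} {q : QP b n} :
    q ∈ EP b T ↔ q.1 0 + ∑ i ∈ T, q.1 i.succ = 1 := by
  unfold EP
  rw [mem_filter]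
  exact ⟨fun h => h.2, fun h => ⟨mem_univ _, h⟩⟩

theorem e0_mem (b : Bool) {n : ℕ} (T : Finset (Fin n)) : e0 b n ∈ EP b T := by
  rw [mem_EP]
  have h1 : ∑ i ∈ T, (e0 b n).1 i.succ = 0 := sum_eq_zero fun i _ => e0_succ b i
  rw [h1, add_zero, e0_zero]

theorem cf_mem (b : Bool) {n : ℕ} (w : Fin n → ZMod 2) (hw : b = true → w ≠ 0)
    (T : Finset (Fin n)) : cf b w hw ∈ EP b T ↔ ∑ i ∈ T, w i = 1 := by
  rw [mem_EP]
  have h1 : (cf b w hw).1 0 = 0 := rfl
  rw [h1, zero_add, sum_congr rfl fun i _ => cf_succ b w hw i]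

theorem covP {b : Bool} {n : ℕ} (hn : b = true → 2 ≤ n) :
    Cov 3 (fun q : QP b n => q.1) := by
  intro x
  have key : ∃ q : Fin 3 → QP b n, ∑ s, (q s).1 = x := by
    set x' : Fin n → ZMod 2 := fun i => x i.succ with hx'
    have hx : x = Fin.cons (x 0) x' := (Fin.cons_self_tail x).symm
    cases b with
    | false =>
      have hz : (0 : Fin (n + 1) → ZMod 2) 0 = 0 ∨ ∀ i : Fin n, (0 : Fin (n + 1) → ZMod 2) i.succ = 0 :=
        Or.inl rfl
      refine ⟨![⟨Fin.cons (x 0) 0, Or.inr fun i => Fin.cons_succ _ _ _, fun h => by cases h⟩,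
        ⟨Fin.cons 0 x', Or.inl rfl, fun h => by cases h⟩, ⟨0, hz, fun h => by cases h⟩], ?_⟩
      rw [Fin.sum_univ_three]
      show (Fin.cons (x 0) 0 : Fin (n + 1) → ZMod 2) + Fin.cons 0 x' + 0 = x
      rw [add_zero]
      funext i
      refine Fin.cases ?_ (fun i => ?_) i
      · rw [Pi.add_apply, Fin.cons_zero, Fin.cons_zero, add_zero]
      · rw [Pi.add_apply, Fin.cons_succ, Fin.cons_succ, Pi.zero_apply, zero_add]
    | true =>
      have hn' := hn rfl
      have h01 : x 0 = 0 ∨ x 0 = 1 := by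
        generalize x 0 = z
        revert z
        decide
      rcases h01 with h0 | h0
      · set u : Fin n → ZMod 2 := Pi.single ⟨0, by omega⟩ 1 with hu
        obtain ⟨w1, w2, h1, h2, h3⟩ := two_sum hn' (x' - u)
        refine ⟨![cf true u fun _ => single_ne _, cf true w1 fun _ => h1, cf true w2 fun _ => h2], ?_⟩
        rw [Fin.sum_univ_three]
        show (Fin.cons 0 u : Fin (n + 1) → ZMod 2) + Fin.cons 0 w1 + Fin.cons 0 w2 = x
        funext i
        refine Fin.cases ?_ (fun i => ?_) i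
        · rw [Pi.add_apply, Pi.add_apply, Fin.cons_zero, Fin.cons_zero, Fin.cons_zero, h0]
          decide
        · rw [Pi.add_apply, Pi.add_apply, Fin.cons_succ, Fin.cons_succ, Fin.cons_succ]
          have h4 := congrFun h3 i
          rw [Pi.add_apply, Pi.sub_apply] at h4
          rw [add_assoc, h4]
          exact add_sub_cancel _ _
      · obtain ⟨w1, w2, h1, h2, h3⟩ := two_sum hn' x'
        refine ⟨![e0 true n, cf true w1 fun _ => h1, cf true w2 fun _ => h2], ?_⟩
        rw [Fin.sum_univ_three]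
        show (Pi.single 0 1 : Fin (n + 1) → ZMod 2) + Fin.cons 0 w1 + Fin.cons 0 w2 = x
        funext i
        refine Fin.cases ?_ (fun i => ?_) i
        · rw [Pi.add_apply, Pi.add_apply, Fin.cons_zero, Fin.cons_zero, h0, Pi.single_eq_same]
          decide
        · rw [Pi.add_apply, Pi.add_apply, Fin.cons_succ, Fin.cons_succ,
            Pi.single_eq_of_ne (Fin.succ_ne_zero i), zero_add]
          have h4 := congrFun h3 i
          rw [Pi.add_apply] at h4
          exact h4
  obtain ⟨q, hq⟩ := key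
  refine ⟨q, fun i => ?_⟩
  rw [← hq, Finset.sum_apply]

/-- the data for the pairs -/
noncomputable def DP (hM : ManyS) {b : Bool} {n : ℕ} (hn : b = true → 2 ≤ n)
    (𝒯 : Finset (Finset (Fin n))) :
    Dat 𝒯 {T : Finset (Fin n) // T.Nonempty} (QP b n) (n + 1) 2 where
  v := fun q => q.1
  t := fun i _ => if i = 0 then 1 else 0
  l := fun T => Fin.cons 1 (ind T.1)
  E := fun T => EP b T.1
  hE := fun T q => by
    rw [mem_EP, Fin.sum_univ_succ, Fin.cons_zero, one_mul]
    simp only [Fin.cons_succ]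
    rw [sum_ind]
  fam :=
    { inj := fun T T' h => by
        refine Subtype.ext ?_
        ext i
        have h' : EP b T.1 = EP b T'.1 := h
        rw [← sum_single T.1 i, ← sum_single T'.1 i,
          ← cf_mem b (Pi.single i 1) (fun _ => single_ne i), h', cf_mem]
      ne := fun T => ⟨e0 b n, e0_mem b T.1⟩ }
  nu := fun T h => by
    cases b with
    | false =>
      have h1 : cf false (0 : Fin n → ZMod 2) (fun h => by cases h) ∈ EP false T.1 := by
        rw [h]
        exact mem_univ _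
      rw [cf_mem] at h1
      simp at h1
    | true =>
      obtain ⟨w, hw, hs⟩ := zero_sum (hn rfl) T.1
      have h1 : cf true w (fun _ => hw) ∈ EP true T.1 := by
        rw [h]
        exact mem_univ _
      exact hs ((cf_mem _ _ _ _).1 h1)
  F := ∅
  bad := bd 1
  lb := lb
  hF := fun p hp => absurd hp (notMem_empty p)
  h0 := fun p _ => rfl
  ht := fun T => by
    rw [Fin.sum_univ_succ, Fin.cons_zero, if_pos rfl, sum_empty, add_zero, mul_one]
    have : ∑ i : Fin n, (Fin.cons 1 (ind T.1) : Fin (n + 1) → ZMod 2) i.succ *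
        (if i.succ = (0 : Fin (n + 1)) then (1 : ZMod 2) else 0) = 0 := by
      refine sum_eq_zero fun i _ => ?_
      rw [if_neg (Fin.succ_ne_zero i), mul_zero]
    rw [this, add_zero]
  dist := Or.inr ⟨e0 b n, fun T => e0_mem b T.1⟩
  k := 3
  cov := covP hn
  many := hM
  E' := fun T => univ.filter fun q => ∑ i ∈ T.1, q.1 i.succ = 1
  ne' := fun T => by
    obtain ⟨i, hi⟩ := T.2
    refine ⟨cf b (Pi.single i 1) fun _ => single_ne i, ?_⟩
    rw [mem_filter]
    refine ⟨mem_univ _, ?_⟩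
    rw [sum_congr rfl fun j _ => cf_succ b (Pi.single i 1) (fun _ => single_ne i) j]
    exact (sum_single T.1 i).2 hi

end Pool.Agent.N869.ZE.A
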