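import Pool.Agent.N869.ZE.A.Num

/-!
# Project ZE, part A: from the colourings to sets of tuples of numbers
-/

set_option autoImplicit false
set_option linter.unusedSectionVars false
set_option linter.unusedVariables false

open scoped Classical

namespace Pool.Agent.N869.ZE.A

open Finset Filter Topology
open Pool.Agent.N973.ND (uu)
open Pool.Agent.N916.GB (Po SA Gd)
open Pool.Agent.N869.QT.L (c2 Fam)
open Pool.Agent.N869.QT.G (sys exC pr Dep)
open Pool.Agent.N869.ZE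

section count

variable {Q : Type} [Fintype Q] [Nonempty Q] {m r : ℕ} {I I' : Type} [Fintype I] [Fintype I']

theorem ncard_enc {Ω : Type} {S : Finset ℕ} {enc : (S → Q) → Ω} (hinj : Function.Injective enc)
    (A : Set Ω) (hA : ∀ ω ∈ A, ∃ c, enc c = ω) :
    A.Finite ∧ A.ncard = (univ.filter fun c => enc c ∈ A).card := by
  have h1 : A = enc '' (↑(univ.filter fun c => enc c ∈ A) : Set (S → Q)) := by
    ext ω
    rw [Set.mem_image]
    constructor
    · intro h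
      obtain ⟨c, rfl⟩ := hA ω h
      exact ⟨c, by rw [coe_filter]; exact ⟨mem_univ _, h⟩, rfl⟩
    · rintro ⟨c, hc, rfl⟩
      rw [coe_filter] at hc
      exact hc.2
  constructor
  · rw [h1]
    exact Set.Finite.image _ (Finset.finite_toSet _)
  · rw [h1, Set.ncard_image_of_injective _ hinj, Set.ncard_coe_finset]
    congr 1
    ext c
    rw [mem_filter, mem_filter, ← h1]

theorem filter_inst {α : Type} (P : α → Prop) (i j : Fintype α) (h k : DecidablePred P) :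
    (@Finset.filter α P h (@Finset.univ α i)).card = (@Finset.filter α P k (@Finset.univ α j)).card := by
  obtain rfl := Subsingleton.elim i j
  obtain rfl := Subsingleton.elim h k
  rfl

theorem pr_eq (S : Finset ℕ) (P : (ℕ → Q) → Prop) (i : Fintype (S → Q))
    (h : DecidablePred fun c : S → Q => P (exC S c)) : pr S P =
      ((@Finset.filter (S → Q) (fun c => P (exC S c)) h (@Finset.univ (S → Q) i)).card : ℝ) /
        (Fintype.card Q : ℝ) ^ S.card := by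
  unfold pr
  rw [filter_inst (fun c : S → Q => P (exC S c)) _ i _ h]

/-- the three estimates -/
def Est (D : Dat I I' Q m r) (δ : ℝ) (S : Finset ℕ) : Prop :=
  0 < pr S (D.C S) ∧
    |pr S (fun γ : ℕ → Q => D.C S γ ∧ ∀ a, GdF D.F (sys γ D.E S a)) -
      c2 ^ Fintype.card I * pr S (D.C S)| ≤ δ * pr S (D.C S) ∧
    pr S (fun γ : ℕ → Q => D.C S γ ∧ ∃ a, sys γ D.E' S a = ∅) ≤ δ * pr S (D.C S)

/-- the proportion of the good elements of a family -/
theorem close_of (hc : 0 ≤ c2 ∧ c2 ≤ 1) (D : Dat I I' Q m r) {S : Finset ℕ} {Ω : Type}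
    {enc : (S → Q) → Ω} (hinj : Function.Injective enc) {fam : Set Ω}
    (hfam : ∀ ω ∈ fam, ∃ c, enc c = ω)
    (h1 : ∀ c, enc c ∈ fam ↔ D.C S (exC S c) ∧ ¬ ∃ a, sys (exC S c) D.E' S a = ∅)
    {good : Ω → Prop}
    (h2 : ∀ c, D.C S (exC S c) → (good (enc c) ↔ ∀ a, GdF D.F (sys (exC S c) D.E S a)))
    {δ : ℝ} (hδ : 0 < δ) (hδ1 : δ ≤ 1 / 2) (hp : Est D δ S) :
    fam.Finite ∧ 0 < fam.ncard ∧
      |({ω ∈ fam | good ω}.ncard : ℝ) / (fam.ncard : ℝ) - c2 ^ Fintype.card I| ≤ 6 * δ := by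
  obtain ⟨hp0, hp1, hp2⟩ := hp
  obtain ⟨hfin, hN⟩ := ncard_enc hinj fam hfam
  obtain ⟨-, hG⟩ := ncard_enc hinj {ω ∈ fam | good ω} fun ω h => hfam ω h.1
  have hq : (0 : ℝ) < (Fintype.card Q : ℝ) ^ S.card := by
    have : (0 : ℝ) < Fintype.card Q := by exact_mod_cast Fintype.card_pos
    positivity
  set q : ℝ := (Fintype.card Q : ℝ) ^ S.card with hqd
  set nC := (univ.filter fun c : S → Q => D.C S (exC S c)).card with hnC
  set nG := (univ.filter fun c : S → Q => D.C S (exC S c) ∧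
    ∀ a, GdF D.F (sys (exC S c) D.E S a)).card with hnG
  set nD := (univ.filter fun c : S → Q => D.C S (exC S c) ∧
    ∃ a, sys (exC S c) D.E' S a = ∅).card with hnD
  have hcard : nC = fam.ncard + nD := by
    rw [hN, hnC, hnD, ← card_union_of_disjoint]
    · congr 1
      ext c
      rw [mem_union, mem_filter, mem_filter, mem_filter, h1 c]
      have := mem_univ c
      tauto
    · rw [Finset.disjoint_left]
      intro c hc1 hc2
      rw [mem_filter] at hc1 hc2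
      exact ((h1 c).1 hc1.2).2 hc2.2.2
  have hg1 : {ω ∈ fam | good ω}.ncard ≤ nG := by
    rw [hG, hnG]
    refine card_le_card fun c hc => ?_
    simp only [mem_filter] at hc ⊢
    obtain ⟨h3, h4, h5⟩ := hc
    have h6 := ((h1 c).1 h4).1
    exact ⟨h3, h6, (h2 c h6).1 h5⟩
  have hg2 : nG ≤ {ω ∈ fam | good ω}.ncard + nD := by
    rw [hG, hnG, hnD]
    refine (card_le_card ?_).trans (card_union_le _ _)
    intro c hc
    simp only [mem_filter] at hc
    obtain ⟨h3, h4, h5⟩ := hc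
    simp only [mem_union, mem_filter]
    by_cases h6 : ∃ a, sys (exC S c) D.E' S a = ∅
    · right
      exact ⟨h3, h4, h6⟩
    · left
      exact ⟨h3, (h1 c).2 ⟨h4, h6⟩, (h2 c h4).2 h5⟩
  have eC : pr S (D.C S) = nC / q := pr_eq S (D.C S) _ _
  have eG : pr S (fun γ : ℕ → Q => D.C S γ ∧ ∀ a, GdF D.F (sys γ D.E S a)) = nG / q :=
    pr_eq S (fun γ : ℕ → Q => D.C S γ ∧ ∀ a, GdF D.F (sys γ D.E S a)) _ _
  have eD : pr S (fun γ : ℕ → Q => D.C S γ ∧ ∃ a, sys γ D.E' S a = ∅) = nD / q :=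
    pr_eq S (fun γ : ℕ → Q => D.C S γ ∧ ∃ a, sys γ D.E' S a = ∅) _ _
  rw [eC] at hp0
  rw [eG, eC] at hp1
  rw [eD, eC] at hp2
  set c := c2 ^ Fintype.card I with hcd
  have hc0 : 0 ≤ c := pow_nonneg hc.1 _
  have hc1 : c ≤ 1 := pow_le_one₀ hc.1 hc.2
  have hC0 : (0 : ℝ) < nC := by
    have := mul_pos hp0 hq
    rwa [div_mul_cancel₀ _ hq.ne'] at this
  have hp1' : |(nG : ℝ) - c * nC| ≤ δ * nC := by
    have h3 : (nG : ℝ) / q - c * (nC / q) = (nG - c * nC) / q := by ring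
    rw [h3, abs_div, abs_of_pos hq, div_le_iff₀ hq] at hp1
    refine hp1.trans (le_of_eq ?_)
    field_simp
  have hp2' : (nD : ℝ) ≤ δ * nC := by
    rw [div_le_iff₀ hq] at hp2
    refine hp2.trans (le_of_eq ?_)
    field_simp
  have hN' : (nC : ℝ) = fam.ncard + nD := by exact_mod_cast hcard
  have hg1' : ({ω ∈ fam | good ω}.ncard : ℝ) ≤ nG := by exact_mod_cast hg1
  have hg2' : (nG : ℝ) ≤ {ω ∈ fam | good ω}.ncard + nD := by exact_mod_cast hg2
  have hD0 : (0 : ℝ) ≤ nD := Nat.cast_nonneg _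
  set N : ℝ := (fam.ncard : ℝ) with hNd
  set G : ℝ := ({ω ∈ fam | good ω}.ncard : ℝ) with hGd
  have hNlow : (nC : ℝ) ≤ 2 * N := by nlinarith
  have hNpos : 0 < N := by linarith
  have hNpos' : 0 < fam.ncard := by
    have : (0 : ℝ) < (fam.ncard : ℝ) := hNpos
    exact_mod_cast this
  refine ⟨hfin, hNpos', ?_⟩
  rw [div_sub' hNpos.ne', abs_div, abs_of_pos hNpos, div_le_iff₀ hNpos]
  obtain ⟨k1, k2⟩ := abs_le.1 hp1'
  have h7 : N * c = c * nC - c * nD := by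
    rw [hN']
    ring
  have h8 : c * nD ≤ nD := by nlinarith
  have h9 : 0 ≤ c * nD := mul_nonneg hc0 hD0
  rw [h7, abs_le]
  constructor <;> nlinarith

end count

/-! ### Sets of primes and numbers -/

/-- the odd squarefree numbers and the sets of odd primes -/
theorem card_SA (X : ℕ) (P : Finset ℕ → Prop) :
    ((Icc 1 X).filter fun f => (Squarefree f ∧ f % 2 = 1) ∧ P f.primeFactors).card =
      ((SA X).filter P).card := by
  refine Finset.card_bij (fun D _ => D.primeFactors) ?_ ?_ ?_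
  · intro D hD
    obtain ⟨h1, h2, h4⟩ := Finset.mem_filter.1 hD
    obtain ⟨h5, h6⟩ := Finset.mem_Icc.1 h1
    refine Finset.mem_filter.2 ⟨Finset.mem_filter.2 ⟨?_, fun p hp => ⟨Nat.prime_of_mem_primeFactors hp,
      ?_⟩, ?_⟩, h4⟩
    · rw [Finset.mem_powerset]
      intro p hp
      have := Nat.le_of_dvd (by omega) (Nat.dvd_of_mem_primeFactors hp)
      exact Finset.mem_range.2 (by omega)
    · rintro rfl
      have := Nat.dvd_of_mem_primeFactors hp
      have := h2.2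
      omega
    · rw [Nat.prod_primeFactors_of_squarefree h2.1]
      exact h6
  · intro D hD E hE h
    have h2 := (Finset.mem_filter.1 hD).2.1.1
    have h3 := (Finset.mem_filter.1 hE).2.1.1
    have h' : D.primeFactors = E.primeFactors := h
    rw [← Nat.prod_primeFactors_of_squarefree h2, ← Nat.prod_primeFactors_of_squarefree h3, h']
  · intro S hS
    obtain ⟨h1, h2⟩ := Finset.mem_filter.1 hS
    obtain ⟨h3, h4, h5⟩ := Finset.mem_filter.1 h1
    obtain ⟨hpf, hsq⟩ := prod_pf fun p hp => (h4 p hp).1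
    refine ⟨∏ p ∈ S, p, ?_, hpf⟩
    refine Finset.mem_filter.2 ⟨Finset.mem_Icc.2 ⟨?_, h5⟩, ⟨hsq, ?_⟩, ?_⟩
    · exact Nat.one_le_iff_ne_zero.2 hsq.ne_zero
    · by_contra h
      have h2 : 2 ∣ ∏ p ∈ S, p := by omega
      have h6 : 2 ∈ (∏ p ∈ S, p).primeFactors := Nat.mem_primeFactors.2 ⟨Nat.prime_two, h2, hsq.ne_zero⟩
      rw [hpf] at h6
      exact (h4 2 h6).2 rfl
    · rw [hpf]
      exact h2

theorem card_SA' (X : ℕ) (P : Finset ℕ → Prop) (i : DecidablePred P)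
    (j : DecidablePred fun f : ℕ => (Squarefree f ∧ f % 2 = 1) ∧ P f.primeFactors) :
    (@Finset.filter _ P i (SA X)).card =
      (@Finset.filter ℕ (fun f : ℕ => (Squarefree f ∧ f % 2 = 1) ∧ P f.primeFactors) j
        (Icc 1 X)).card :=
  (filter_card_inst P i _ _).trans ((card_SA X P).symm.trans (filter_card_inst
    (fun f : ℕ => (Squarefree f ∧ f % 2 = 1) ∧ P f.primeFactors) _ j _))

theorem card_split {α : Type} (P Q : α → Prop) (i1 : DecidablePred P)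
    (i2 : DecidablePred fun f => P f ∧ Q f) (i3 : DecidablePred fun f => P f ∧ ¬ Q f)
    (s : Finset α) : (@Finset.filter α P i1 s).card = (@Finset.filter α (fun f => P f ∧ Q f) i2 s).card +
      (@Finset.filter α (fun f => P f ∧ ¬ Q f) i3 s).card := by
  rw [← card_union_of_disjoint]
  · congr 1
    ext f
    simp only [mem_union, mem_filter]
    tauto
  · rw [Finset.disjoint_left]
    intro f hf1 hf2
    simp only [mem_filter] at hf1 hf2
    exact hf2.2.2 hf1.2.2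

/-- from few exceptions to the limit -/
theorem tend0 {N G B : ℕ → ℕ} (h : ∀ X, N X = G X + B X)
    (hlow : ∃ (c : ℝ) (X₀ : ℕ), 0 < c ∧ ∀ X : ℕ, X₀ ≤ X → c * X ≤ (N X : ℝ))
    (hfew : ∀ ε : ℝ, 0 < ε → ∃ X₀ : ℕ, ∀ X : ℕ, X₀ ≤ X → (B X : ℝ) ≤ ε * X) :
    Tendsto (fun X : ℕ => (G X : ℝ) / (N X : ℝ)) atTop (𝓝 1) := by
  obtain ⟨c, X₁, hc, h1⟩ := hlow
  rw [Metric.tendsto_atTop]
  intro ε hε
  obtain ⟨X₂, h2⟩ := hfew (ε / 2 * c) (by positivity)
  refine ⟨max 1 (max X₁ X₂), fun X hX => ?_⟩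
  have hX1 : 1 ≤ X := le_trans (le_max_left _ _) hX
  have g1 := h1 X (le_trans (le_max_left _ _) (le_trans (le_max_right _ _) hX))
  have g2 := h2 X (le_trans (le_max_right _ _) (le_trans (le_max_right _ _) hX))
  have hX0 : (0 : ℝ) < X := by exact_mod_cast hX1
  have e2 : (N X : ℝ) = G X + B X := by exact_mod_cast h X
  have hN0 : (0 : ℝ) < N X := lt_of_lt_of_le (by positivity) g1
  have e3 : (G X : ℝ) = N X - B X := by linarith
  rw [Real.dist_eq, e3, sub_div, div_self hN0.ne', sub_sub_cancel_left, abs_neg, abs_div,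
    abs_of_nonneg (Nat.cast_nonneg _), abs_of_pos hN0, div_lt_iff₀ hN0]
  have : ε / 2 * c * X ≤ ε / 2 * N X := by
    rw [mul_assoc]
    exact mul_le_mul_of_nonneg_left g1 (by positivity)
  nlinarith

/-- the numbers `1` modulo `30 n` -/
theorem low {n : ℕ} (hn : 0 < n) : ∃ (c : ℝ) (X₀ : ℕ), 0 < c ∧ ∀ X : ℕ, X₀ ≤ X →
    c * X ≤ (((Icc 1 X).filter fun f => Squarefree f ∧ f.Coprime (30 * n)).card : ℝ) := by
  have hM : 0 < 30 * n := by positivity
  refine ⟨1 / (4 * ((30 * n : ℕ) : ℝ)), (4 * (30 * n) + 4) * (4 * (30 * n) + 4), ?_, fun X hX => ?_⟩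
  · have : (0 : ℝ) < ((30 * n : ℕ) : ℝ) := by exact_mod_cast hM
    positivity
  · have h := Pool.Agent.N856.JL.Tr.lowM (M := 30 * n) (a := 1) hM ⟨15 * n, by ring⟩ one_pos
      (by omega) (Nat.coprime_one_left _) X hX
    refine h.trans (Nat.cast_le.2 (card_le_card fun f hf => ?_))
    rw [mem_filter] at hf ⊢
    refine ⟨hf.1, hf.2.1, ?_⟩
    have h1 : f % (30 * n) = 1 := hf.2.2
    rw [Nat.coprime_iff_gcd_eq_one, Nat.gcd_comm, Nat.gcd_rec, h1]
    exact Nat.gcd_one_left _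

theorem mqk' {Q : Type} [Fintype Q] [Nonempty Q] {m r : ℕ} {I I' : Type} [Fintype I] [Fintype I']
    (hAK : S_ASYK) (hSQ : S_SQ2) (D : Dat I I' Q m r) {δ ε : ℝ} (hδ : 0 < δ) (hε : 0 < ε) :
    ∃ X₀ : ℕ, ∀ X : ℕ, X₀ ≤ X →
      (((SA X).filter fun S => (∀ p ∈ S, p ∉ D.bad) ∧ ¬ Est D δ S).card : ℝ) ≤ ε * X := by
  obtain ⟨X₀, h0⟩ := t_MQK hAK hSQ D δ ε hδ hε
  refine ⟨X₀, fun X hX => le_trans (le_of_eq ?_) (h0 X hX)⟩
  exact congrArg (fun x : ℕ => (x : ℝ)) (filter_card_inst (fun S => (∀ p ∈ S, p ∉ D.bad) ∧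
    ¬ Est D δ S) _ _ _)

/-- the general conclusion -/
theorem final {Q : Type} [Fintype Q] [Nonempty Q] {m r : ℕ} {I I' : Type} [Fintype I] [Fintype I']
    (hAK : S_ASYK) (hSQ : S_SQ2) (D : Dat I I' Q m r) {n : ℕ} (hn : 0 < n)
    (hbad : ∀ f : ℕ, Squarefree f → f.Coprime (30 * n) → ∀ p ∈ f.primeFactors, p ∉ D.bad)
    {δ : ℝ} (hδ : 0 < δ) {Cls : ℕ → Prop}
    (hCls : ∀ f : ℕ, Squarefree f → f.Coprime (30 * n) → Est D δ f.primeFactors → Cls f)
    (i1 : DecidablePred fun f : ℕ => (Squarefree f ∧ f.Coprime (30 * n)) ∧ Cls f)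
    (i2 : DecidablePred fun f : ℕ => Squarefree f ∧ f.Coprime (30 * n)) :
    Tendsto (fun X : ℕ => ((@Finset.filter ℕ (fun f => (Squarefree f ∧ f.Coprime (30 * n)) ∧
      Cls f) i1 (Icc 1 X)).card : ℝ) /
      ((@Finset.filter ℕ (fun f => Squarefree f ∧ f.Coprime (30 * n)) i2 (Icc 1 X)).card : ℝ))
      atTop (𝓝 1) := by
  have hl : ∃ (c : ℝ) (X₀ : ℕ), 0 < c ∧ ∀ X : ℕ, X₀ ≤ X → c * X ≤
      ((@Finset.filter ℕ (fun f => Squarefree f ∧ f.Coprime (30 * n)) i2 (Icc 1 X)).card : ℝ) := by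
    obtain ⟨c, X₀, hc, h⟩ := low hn
    refine ⟨c, X₀, hc, fun X hX => (h X hX).trans (le_of_eq ?_)⟩
    exact congrArg (fun x : ℕ => (x : ℝ)) (filter_card_inst
      (fun f : ℕ => Squarefree f ∧ f.Coprime (30 * n)) _ _ _)
  refine tend0 (B := fun X => ((Icc 1 X).filter fun f => (Squarefree f ∧ f.Coprime (30 * n)) ∧
      ¬ Cls f).card) (fun X => card_split (fun f => Squarefree f ∧ f.Coprime (30 * n)) Cls i2 i1 _
      (Icc 1 X)) hl fun ε hε => ?_
  obtain ⟨X₀, h0⟩ := mqk' hAK hSQ D hδ hε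
  refine ⟨X₀, fun X hX => le_trans ?_ (h0 X hX)⟩
  rw [card_SA' X (fun S => (∀ p ∈ S, p ∉ D.bad) ∧ ¬ Est D δ S) _ fun f => Classical.propDecidable _]
  refine Nat.cast_le.2 (card_le_card fun f hf => ?_)
  simp only [mem_filter] at hf ⊢
  obtain ⟨hf1, ⟨hf2, hf3⟩, hf4⟩ := hf
  refine ⟨hf1, ⟨hf2, ?_⟩, hbad f hf2 hf3, fun h => hf4 (hCls f hf2 hf3 h)⟩
  by_contra h
  have h5 : 2 ∣ Nat.gcd f (30 * n) := Nat.dvd_gcd (by omega) ⟨15 * n, by ring⟩
  rw [Nat.coprime_iff_gcd_eq_one.1 hf3] at h5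
  omega

end Pool.Agent.N869.ZE.A
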