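import Pool.Agent.N869.ZE.A.Col

/-!
# Project ZE, part A: almost all sets, the proportions in the class
-/

set_option autoImplicit false
set_option linter.unusedSectionVars false
set_option linter.unusedVariables false

open scoped Classical

namespace Pool.Agent.N869.ZE.A

open Finset
open Pool.Agent.N973.ND (uu)
open Pool.Agent.N916.GB (Po SA)
open Pool.Agent.N869.QT.L (c2 Fam)
open Pool.Agent.N869.QT.G (sys exC pr Dep)
open Pool.Agent.N869.ZE

variable {Q : Type} [Fintype Q] [Nonempty Q] {m r : ℕ}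

theorem fam_left {I : Type} {E : I → Finset Q} (h : Fam E) :
    Fam fun a : I => E a ×ˢ (univ : Finset Q) where
  inj := by
    intro a b hab
    refine h.inj ?_
    have hab' : E a ×ˢ (univ : Finset Q) = E b ×ˢ (univ : Finset Q) := hab
    obtain ⟨q0⟩ := ‹Nonempty Q›
    ext q
    have h1 : (q, q0) ∈ E a ×ˢ (univ : Finset Q) ↔ (q, q0) ∈ E b ×ˢ (univ : Finset Q) := by
      rw [hab']
    rw [mem_product, mem_product] at h1
    exact ⟨fun h => (h1.1 ⟨h, mem_univ _⟩).1, fun h => (h1.2 ⟨h, mem_univ _⟩).1⟩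
  ne := fun a => (h.ne a).product univ_nonempty

theorem fam_EE {I : Type} {E : I → Finset Q} (h : Fam E) (hu : ∀ a, E a ≠ univ) : Fam (EE E) where
  inj := by
    have key : ∀ a b, E a ×ˢ (univ : Finset Q) ≠ (univ : Finset Q) ×ˢ E b := by
      intro a b hab
      obtain ⟨q0, hq0⟩ := h.ne b
      apply hu a
      rw [eq_univ_iff_forall]
      intro q
      have h1 : (q, q0) ∈ E a ×ˢ (univ : Finset Q) := by
        rw [hab, mem_product]
        exact ⟨mem_univ _, hq0⟩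
      rw [mem_product] at h1
      exact h1.1
    rintro (a | a) (b | b) hab
    · rw [(fam_left h).inj hab]
    · exact absurd hab (key a b)
    · exact absurd hab.symm (key b a)
    · have hab' : (univ : Finset Q) ×ˢ E a = (univ : Finset Q) ×ˢ E b := hab
      have : a = b := by
        refine h.inj ?_
        obtain ⟨q0⟩ := ‹Nonempty Q›
        ext q
        have h1 : (q0, q) ∈ (univ : Finset Q) ×ˢ E a ↔ (q0, q) ∈ (univ : Finset Q) ×ˢ E b := by
          rw [hab']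
        rw [mem_product, mem_product] at h1
        exact ⟨fun h => (h1.1 ⟨mem_univ _, h⟩).2, fun h => (h1.2 ⟨mem_univ _, h⟩).2⟩
      rw [this]
  ne := by
    rintro (a | a)
    · exact (h.ne a).product univ_nonempty
    · exact univ_nonempty.product (h.ne a)

/-- the data of a family of systems of colours -/
structure Dat (I I' : Type) (Q : Type) [Fintype Q] (m r : ℕ) where
  v : Q → Fin m → ZMod 2
  t : Fin m → Fin (r + 1) → ZMod 2
  l : I → Fin m → ZMod 2
  E : I → Finset Q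
  hE : ∀ a q, q ∈ E a ↔ ∑ i, l a i * v q i = 1
  fam : Fam E
  nu : ∀ a, E a ≠ univ
  F : Finset ℕ
  bad : Set ℕ
  lb : ℕ → Fin (r + 1) → ZMod 2
  hF : ∀ p ∈ F, Po p ∧ p ∈ bad
  h0 : ∀ p, Po p → uu p = lb p 0
  ht : ∀ a, ∑ i, l a i * t i 0 + ∑ p ∈ F, uu p = 1
  dist : (∃ u ∈ F, uu u = 1) ∨ ∃ q, ∀ a, q ∈ E a
  k : ℕ
  cov : Cov k v
  many : ∀ (j : Fin (r + 1)) (k : ℕ) (ε : ℝ), 0 < ε → ∃ X₀ : ℕ, ∀ X : ℕ, X₀ ≤ X →
    (((SA X).filter fun S => (S.filter fun p => lb p = Pi.single j 1).card < k).card : ℝ) ≤ ε * X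
  E' : I' → Finset Q
  ne' : ∀ a, (E' a).Nonempty

/-- the class of the data -/
def Dat.C {I I' : Type} (D : Dat I I' Q m r) (S : Finset ℕ) (γ : ℕ → Q) : Prop :=
  Cl D.lb D.bad D.v D.t γ S

theorem sqE (hAK : S_ASYK) (hSQ : S_SQ2) {I I' : Type} [Fintype I] (D : Dat I I' Q m r) :
    SqE SA (GdF D.F) c2 (lvB D.lb D.bad)
      (AdK D.F fun x : (Fin (r + 1) → ZMod 2) × Bool => x.1 0) {x | x.2 = true} D.E := by
  have hF : ∀ p ∈ D.F, Po p ∧ lvB D.lb D.bad p ∈
      ({x | x.2 = true} : Set ((Fin (r + 1) → ZMod 2) × Bool)) := fun p hp =>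
    ⟨(D.hF p hp).1, decide_eq_true (D.hF p hp).2⟩
  have h0 : ∀ p, Po p → uu p =
      (fun x : (Fin (r + 1) → ZMod 2) × Bool => x.1 0) (lvB D.lb D.bad p) := fun p hp =>
    D.h0 p hp
  refine hSQ ℕ SA (GdF D.F) c2 _ _ _ _ I Q D.E ?_ ?_
  · refine hAK _ _ _ _ D.F hF h0 (I ⊕ I) (Q × Q) (EE D.E) (fam_EE D.fam D.nu) ?_
    rcases D.dist with h | ⟨q, hq⟩
    · exact Or.inl h
    · refine Or.inr ⟨(q, q), ?_⟩
      rintro (a | a)
      · exact mem_product.2 ⟨hq a, mem_univ _⟩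
      · exact mem_product.2 ⟨mem_univ _, hq a⟩
  · refine hAK _ _ _ _ D.F hF h0 I (Q × Q) _ (fam_left D.fam) ?_
    rcases D.dist with h | ⟨q, hq⟩
    · exact Or.inl h
    · exact Or.inr ⟨(q, q), fun a => mem_product.2 ⟨hq a, mem_univ _⟩⟩

/-- the statement for almost all the sets -/
def MQK {I I' : Type} [Fintype I] (D : Dat I I' Q m r) : Prop :=
  ∀ δ ε : ℝ, 0 < δ → 0 < ε → ∃ X₀ : ℕ, ∀ X : ℕ, X₀ ≤ X →
  (((SA X).filter fun S => (∀ p ∈ S, p ∉ D.bad) ∧ ¬ (0 < pr S (D.C S) ∧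
    |pr S (fun γ : ℕ → Q => D.C S γ ∧ ∀ a, GdF D.F (sys γ D.E S a)) -
      c2 ^ Fintype.card I * pr S (D.C S)| ≤ δ * pr S (D.C S) ∧
    pr S (fun γ : ℕ → Q => D.C S γ ∧ ∃ a, sys γ D.E' S a = ∅) ≤ δ * pr S (D.C S))).card : ℝ) ≤
    ε * X

theorem exists_all {I : Type} [Fintype I] (f : I → ℕ → Prop)
    (h : ∀ i, ∃ X₀ : ℕ, ∀ X : ℕ, X₀ ≤ X → f i X) : ∃ X₀ : ℕ, ∀ X : ℕ, X₀ ≤ X → ∀ i, f i X := by
  choose X0 h0 using h
  refine ⟨univ.sup X0, fun X hX i => h0 i X (le_trans (le_sup (mem_univ i)) hX)⟩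

theorem t_MQK (hAK : S_ASYK) (hSQ : S_SQ2) {I I' : Type} [Fintype I] [Fintype I']
    (D : Dat I I' Q m r) : MQK D := by
  intro δ ε hδ hε
  have hq0 : 0 < Fintype.card Q := Fintype.card_pos
  have hq : (0 : ℝ) < Fintype.card Q := by exact_mod_cast hq0
  set q : ℝ := (Fintype.card Q : ℝ) with hqdef
  set B : ℝ := 1 / q ^ ((r + 1) * D.k) with hB
  have hB0 : 0 < B := by positivity
  obtain ⟨X₁, hX₁⟩ := sqE hAK hSQ D (PB D.v D.t) (okP D.hE D.ht) (δ * B) (ε / 3) (by positivity)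
    (by positivity)
  -- the number of the elements
  have hr0 : 0 ≤ (q - 1) / q := by
    have : (1 : ℝ) ≤ q := by
      rw [hqdef]
      exact_mod_cast hq0
    exact div_nonneg (by linarith) hq.le
  have hr1 : (q - 1) / q < 1 := by
    rw [div_lt_one hq]
    linarith
  obtain ⟨n, hn⟩ := exists_pow_lt_of_lt_one
    (show 0 < δ * B / ((Fintype.card I' : ℝ) + 1) by positivity) hr1
  have hk := exists_all (fun (j : Fin (r + 1)) (X : ℕ) =>
    (((SA X).filter fun S => (S.filter fun p => D.lb p = Pi.single j 1).card <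
      max n D.k).card : ℝ) ≤ ε / (3 * (r + 1)) * X) fun j =>
    D.many j (max n D.k) (ε / (3 * (r + 1))) (by positivity)
  obtain ⟨X₂, hX₂⟩ := hk
  refine ⟨max X₁ X₂, fun X hX => ?_⟩
  have h1 := hX₁ X (le_trans (le_max_left _ _) hX)
  have h2 := hX₂ X (le_trans (le_max_right _ _) hX)
  have h3 : (((univ : Finset (Fin (r + 1))).biUnion fun j => (SA X).filter fun S =>
      (S.filter fun p => D.lb p = Pi.single j 1).card < max n D.k).card : ℝ) ≤ ε / 3 * X := by
    have h4 : (((univ : Finset (Fin (r + 1))).biUnion fun j => (SA X).filter fun S =>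
        (S.filter fun p => D.lb p = Pi.single j 1).card < max n D.k).card : ℝ) ≤
        ∑ j : Fin (r + 1), (((SA X).filter fun S =>
          (S.filter fun p => D.lb p = Pi.single j 1).card < max n D.k).card : ℝ) := by
      exact_mod_cast card_biUnion_le
    refine h4.trans ((sum_le_sum fun j _ => h2 j).trans (le_of_eq ?_))
    rw [sum_const, card_univ, Fintype.card_fin, nsmul_eq_mul]
    push_cast
    field_simp
  have hX0 : (0 : ℝ) ≤ X := Nat.cast_nonneg _
  refine le_trans ?_ (show ε / 3 * X + ε / 3 * X ≤ ε * X by nlinarith)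
  refine le_trans ?_ (add_le_add h1 h3)
  rw [← Nat.cast_add, Nat.cast_le]
  refine le_trans (card_le_card ?_) (card_union_le _ _)
  intro S hS
  rw [mem_filter] at hS
  obtain ⟨hS, hSb, hbad⟩ := hS
  rw [mem_union, mem_filter, mem_biUnion]
  by_contra hcon
  apply hbad
  rw [not_or] at hcon
  obtain ⟨hc1, hc2⟩ := hcon
  have hc1' := not_lt.1 fun h => hc1 ⟨hS, h⟩
  have hc2' : ∀ j : Fin (r + 1), max n D.k ≤ (S.filter fun p => D.lb p = Pi.single j 1).card :=
    fun j => not_lt.1 fun h => hc2 ⟨j, mem_univ _, mem_filter.2 ⟨hS, h⟩⟩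
  have hMany : Many D.k D.lb S := fun j => le_trans (le_max_right _ _) (hc2' j)
  have hcardn : n ≤ S.card :=
    le_trans (le_trans (le_max_left _ _) (hc2' 0)) (card_filter_le _ _)
  have hy : B ≤ pr S (D.C S) := pr_cl D.t hSb D.cov hMany
  have hlow : δ * B ≤ δ * pr S (D.C S) := mul_le_mul_of_nonneg_left hy hδ.le
  refine ⟨lt_of_lt_of_le hB0 hy, ?_, ?_⟩
  · have e1 : pr S (fun γ : ℕ → Q => PB D.v D.t (cnt (lc γ (lvB D.lb D.bad)) S) ∧
        ∀ a, GdF D.F (sys γ D.E S a)) =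
        pr S (fun γ : ℕ → Q => D.C S γ ∧ ∀ a, GdF D.F (sys γ D.E S a)) :=
      pr_congr fun γ => and_congr (PB_iff _ _ _ _ _ _) Iff.rfl
    have e2 : pr S (fun γ : ℕ → Q => PB D.v D.t (cnt (lc γ (lvB D.lb D.bad)) S)) =
        pr S (D.C S) := pr_congr fun γ => PB_iff _ _ _ _ _ _
    rw [e1, e2] at hc1'
    exact hc1'.trans hlow
  · refine le_trans (pr_mono fun γ h => h.2) ((pr_deg D.E' D.ne' S).trans (le_trans ?_ hlow))
    rw [← hqdef]
    have h3 : ((q - 1) / q) ^ S.card ≤ ((q - 1) / q) ^ n := pow_le_pow_of_le_one hr0 hr1.le hcardn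
    have h4 : (Fintype.card I' : ℝ) * ((q - 1) / q) ^ S.card ≤
        (Fintype.card I' : ℝ) * (δ * B / ((Fintype.card I' : ℝ) + 1)) :=
      mul_le_mul_of_nonneg_left (h3.trans hn.le) (Nat.cast_nonneg _)
    refine h4.trans ?_
    rw [mul_div_assoc']
    rw [div_le_iff₀ (by positivity)]
    have h5 : (0 : ℝ) ≤ δ * B := by positivity
    nlinarith

end Pool.Agent.N869.ZE.A
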