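import Pool.Agent.N869.ZE.A.MQK
import Pool.Agent.N856.JL.Cmb
import Pool.Agent.N856.JL.Tr

/-!
# Project ZE, part A: tuples of numbers and colourings
-/

set_option autoImplicit false
set_option linter.unusedSectionVars false
set_option linter.unusedVariables false

open scoped Classical

namespace Pool.Agent.N869.ZE.A

open Finset
open Pool.Agent.N973.ND (uu)
open Pool.Agent.N916.GB (Po SA Gd)
open Pool.Agent.N869.QT.L (c2 Fam)
open Pool.Agent.N869.QT.G (sys exC pr Dep)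
open Pool.Agent.N856.JL (sfp sfp_mul_sq sfp_self)
open Pool.Agent.N869.ZE

theorem prod_pf {S : Finset ℕ} (hS : ∀ p ∈ S, p.Prime) :
    (∏ p ∈ S, p).primeFactors = S ∧ Squarefree (∏ p ∈ S, p) := by
  refine ⟨Nat.primeFactors_prod hS, ?_⟩
  refine Finset.squarefree_prod_of_pairwise_isCoprime (fun p hp q hq hpq => ?_)
    fun p hp => (hS p hp).squarefree
  show IsRelPrime p q
  rw [← Nat.coprime_iff_isRelPrime]
  exact (Nat.coprime_primes (hS p hp) (hS q hq)).mpr hpq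

/-! ### The labels modulo 60 -/

/-- the label: the classes modulo `4`, modulo `3` and modulo `5`, modulo squares -/
noncomputable def lb (p : ℕ) : Fin 3 → ZMod 2 :=
  ![uu p, if p % 3 = 2 then 1 else 0, if p % 5 = 2 ∨ p % 5 = 3 then 1 else 0]

theorem lb0 (p : ℕ) : lb p 0 = uu p := rfl
theorem lb1 (p : ℕ) : lb p 1 = if p % 3 = 2 then 1 else 0 := rfl
theorem lb2 (p : ℕ) : lb p 2 = if p % 5 = 2 ∨ p % 5 = 3 then 1 else 0 := rfl

/-- prime to `30` -/
def C30 (p : ℕ) : Prop := p % 2 = 1 ∧ p % 3 ≠ 0 ∧ p % 5 ≠ 0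

/-- the class of a product -/
theorem cls_prod {S : Finset ℕ} (h : ∀ p ∈ S, C30 p) :
    (((∏ p ∈ S, p) % 4 = 1 ∧ ∑ p ∈ S, lb p 0 = 0) ∨ ((∏ p ∈ S, p) % 4 = 3 ∧ ∑ p ∈ S, lb p 0 = 1)) ∧
    (((∏ p ∈ S, p) % 3 = 1 ∧ ∑ p ∈ S, lb p 1 = 0) ∨ ((∏ p ∈ S, p) % 3 = 2 ∧ ∑ p ∈ S, lb p 1 = 1)) ∧
    ((((∏ p ∈ S, p) % 5 = 1 ∨ (∏ p ∈ S, p) % 5 = 4) ∧ ∑ p ∈ S, lb p 2 = 0) ∨
      (((∏ p ∈ S, p) % 5 = 2 ∨ (∏ p ∈ S, p) % 5 = 3) ∧ ∑ p ∈ S, lb p 2 = 1)) := by
  induction S using Finset.induction_on with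
  | empty => simp
  | insert a S ha ih =>
    have ih' := ih fun p hp => h p (mem_insert_of_mem hp)
    have h1 := h a (mem_insert_self a S)
    obtain ⟨h2, h3, h5⟩ := h1
    rw [prod_insert ha, sum_insert ha, sum_insert ha, sum_insert ha]
    obtain ⟨i4, i3, i5⟩ := ih'
    have d11 : (1 : ZMod 2) + 1 = 0 := by decide
    refine ⟨?_, ?_, ?_⟩
    · rw [Nat.mul_mod, lb0]
      unfold Pool.Agent.N973.ND.uu
      rcases (show a % 4 = 1 ∨ a % 4 = 3 by omega) with e | e <;>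
        rcases i4 with ⟨g1, g2⟩ | ⟨g1, g2⟩ <;> simp [e, g1, g2, d11]
    · rw [Nat.mul_mod, lb1]
      rcases (show a % 3 = 1 ∨ a % 3 = 2 by omega) with e | e <;>
        rcases i3 with ⟨g1, g2⟩ | ⟨g1, g2⟩ <;> simp [e, g1, g2, d11]
    · rw [Nat.mul_mod, lb2]
      rcases (show a % 5 = 1 ∨ a % 5 = 2 ∨ a % 5 = 3 ∨ a % 5 = 4 by omega) with e | e | e | e <;>
        rcases i5 with ⟨g1 | g1, g2⟩ | ⟨g1 | g1, g2⟩ <;> simp [e, g1, g2, d11]

theorem c30_of {D : ℕ} (hD : C30 D) : ∀ p ∈ D.primeFactors, C30 p := by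
  intro p hp
  obtain ⟨h1, h2, h3⟩ := Nat.mem_primeFactors.1 hp
  obtain ⟨g1, g2, g3⟩ := hD
  refine ⟨?_, ?_, ?_⟩
  · by_contra h
    have : 2 ∣ D := (show 2 ∣ p by omega).trans h2
    omega
  · intro h
    have : 3 ∣ D := (show 3 ∣ p by omega).trans h2
    omega
  · intro h
    have : 5 ∣ D := (show 5 ∣ p by omega).trans h2
    omega

theorem c30_prod {S : Finset ℕ} (h : ∀ p ∈ S, C30 p) : C30 (∏ p ∈ S, p) := by
  obtain ⟨h1, h2, h3⟩ := cls_prod h
  refine ⟨?_, ?_, ?_⟩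
  · rcases h1 with h | h <;> omega
  · rcases h2 with h | h <;> omega
  · rcases h3 with ⟨h | h, -⟩ | ⟨h | h, -⟩ <;> omega

/-- the class of the discriminants `d` -/
theorem disc_iff {D : ℕ} (hD : Squarefree D) (h30 : C30 D) :
    (D % 12 = 1 ∧ (D % 5 = 1 ∨ D % 5 = 4)) ↔ ∀ j, ∑ p ∈ D.primeFactors, lb p j = 0 := by
  have h := cls_prod (c30_of h30)
  rw [Nat.prod_primeFactors_of_squarefree hD] at h
  obtain ⟨h4, h3, h5⟩ := h
  constructor
  · rintro ⟨g1, g2⟩ j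
    fin_cases j
    · rcases h4 with h | h
      · exact h.2
      · omega
    · rcases h3 with h | h
      · exact h.2
      · omega
    · rcases h5 with h | h
      · exact h.2
      · omega
  · intro g
    have g0 := g 0
    have g1 := g 1
    have g2 := g 2
    rcases h4 with h | h
    · rcases h3 with h' | h'
      · rcases h5 with h'' | h''
        · exact ⟨by omega, h''.1⟩
        · rw [h''.2] at g2
          exact absurd g2 (by decide)
      · rw [h'.2] at g1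
        exact absurd g1 (by decide)
    · rw [h.2] at g0
      exact absurd g0 (by decide)

/-- the class of the numbers `n` -/
theorem twist_iff {D : ℕ} (hD : Squarefree D) (h30 : C30 D) :
    (D % 60 = 23 ∨ D % 60 = 47) ↔ ∀ j, ∑ p ∈ D.primeFactors, lb p j = 1 := by
  have h := cls_prod (c30_of h30)
  rw [Nat.prod_primeFactors_of_squarefree hD] at h
  obtain ⟨h4, h3, h5⟩ := h
  constructor
  · intro g j
    fin_cases j
    · rcases h4 with h | h
      · omega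
      · exact h.2
    · rcases h3 with h | h
      · omega
      · exact h.2
    · rcases h5 with h | h
      · omega
      · exact h.2
  · intro g
    have g0 := g 0
    have g1 := g 1
    have g2 := g 2
    rcases h4 with h | h
    · rw [h.2] at g0
      exact absurd g0 (by decide)
    · rcases h3 with h' | h'
      · rw [h'.2] at g1
        exact absurd g1 (by decide)
      · rcases h5 with h'' | h''
        · rw [h''.2] at g2
          exact absurd g2 (by decide)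
        · omega

theorem disc_c30 {D : ℕ} (h : D % 12 = 1 ∧ (D % 5 = 1 ∨ D % 5 = 4)) : C30 D := by
  refine ⟨?_, ?_, ?_⟩ <;> omega

theorem twist_c30 {D : ℕ} (h : D % 60 = 23 ∨ D % 60 = 47) : C30 D := by
  refine ⟨?_, ?_, ?_⟩ <;> omega

/-! ### The tuple of a colouring -/

section tpl

variable {Q : Type} {m : ℕ}

/-- the tuple of a colouring -/
noncomputable def tpl (v : Q → Fin m → ZMod 2) (S : Finset ℕ) (γ : ℕ → Q) (i : Fin m) : ℕ :=
  ∏ p ∈ S.filter (fun p => v (γ p) i = 1), p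

theorem tpl_pf {v : Q → Fin m → ZMod 2} {S : Finset ℕ} {γ : ℕ → Q} {i : Fin m}
    (hS : ∀ p ∈ S, p.Prime) :
    (tpl v S γ i).primeFactors = S.filter (fun p => v (γ p) i = 1) ∧ Squarefree (tpl v S γ i) :=
  prod_pf fun p hp => hS p (mem_filter.1 hp).1

theorem dvd_tpl {v : Q → Fin m → ZMod 2} {S : Finset ℕ} {γ : ℕ → Q} {i : Fin m}
    (hS : ∀ p ∈ S, p.Prime) {p : ℕ} (hp : p ∈ S) : p ∣ tpl v S γ i ↔ v (γ p) i = 1 := by
  have h := tpl_pf (v := v) (γ := γ) (i := i) hS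
  have h1 : p ∣ tpl v S γ i ↔ p ∈ (tpl v S γ i).primeFactors := by
    rw [Nat.mem_primeFactors]
    exact ⟨fun h2 => ⟨hS p hp, h2, h.2.ne_zero⟩, fun h2 => h2.2.1⟩
  rw [h1, h.1, mem_filter]
  exact ⟨fun h => h.2, fun h => ⟨hp, h⟩⟩

theorem z2_iff {a b : ZMod 2} (h : a = 1 ↔ b = 1) : a = b := by
  revert a b
  decide

theorem tpl_inj [Nonempty Q] {v : Q → Fin m → ZMod 2} (hv : Function.Injective v) {S : Finset ℕ}
    (hS : ∀ p ∈ S, p.Prime) : Function.Injective fun c : S → Q => tpl v S (exC S c) := by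
  intro c c' h
  funext p
  refine hv (funext fun i => z2_iff ?_)
  have h1 : tpl v S (exC S c) i = tpl v S (exC S c') i := congrFun h i
  have h2 := dvd_tpl (v := v) (γ := exC S c) (i := i) hS p.2
  have h3 := dvd_tpl (v := v) (γ := exC S c') (i := i) hS p.2
  rw [exC_ap p.2] at h2 h3
  rw [← h2, ← h3, h1]

/-- the tuples of colourings -/
theorem tpl_surj [Nonempty Q] {v : Q → Fin m → ZMod 2} {S : Finset ℕ} (hS : ∀ p ∈ S, p.Prime)
    {x : Fin m → ℕ} (hx : ∀ i, Squarefree (x i)) (hxS : ∀ i, (x i).primeFactors ⊆ S)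
    (hq : ∀ p ∈ S, ∃ q : Q, ∀ i, v q i = 1 ↔ p ∣ x i) :
    ∃ c : S → Q, tpl v S (exC S c) = x := by
  have h1 : ∀ p : S, ∃ q : Q, ∀ i, v q i = 1 ↔ p.1 ∣ x i := fun p => hq p.1 p.2
  choose c hc using h1
  refine ⟨c, funext fun i => ?_⟩
  rw [← Nat.prod_primeFactors_of_squarefree (hx i)]
  unfold tpl
  refine prod_congr ?_ fun _ _ => rfl
  ext p
  rw [mem_filter]
  constructor
  · rintro ⟨h2, h3⟩
    rw [exC_ap h2] at h3
    exact Nat.mem_primeFactors.2 ⟨hS p h2, (hc ⟨p, h2⟩ i).1 h3, (hx i).ne_zero⟩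
  · intro h2
    have h3 := hxS i h2
    refine ⟨h3, ?_⟩
    rw [exC_ap h3]
    exact (hc ⟨p, h3⟩ i).2 (Nat.dvd_of_mem_primeFactors h2)

/-- the primes whose colour meets the form `l` oddly -/
noncomputable def od (v : Q → Fin m → ZMod 2) (S : Finset ℕ) (γ : ℕ → Q) (T : Finset (Fin m)) :
    Finset ℕ := S.filter fun p => ∑ i ∈ T, v (γ p) i = 1

theorem sum_z2 (T : Finset (Fin m)) (f : Fin m → ZMod 2) :
    ∑ i ∈ T, f i = 1 ↔ Odd (T.filter fun i => f i = 1).card := by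
  have h1 : ∑ i ∈ T, f i = ((T.filter fun i => f i = 1).card : ZMod 2) := by
    rw [← sum_boole]
    refine sum_congr rfl fun i _ => ?_
    generalize f i = z
    revert z
    decide
  rw [h1]
  exact ZMod.natCast_eq_one_iff_odd

/-- the product over a set of coordinates -/
theorem prod_tpl (v : Q → Fin m → ZMod 2) (S : Finset ℕ) (γ : ℕ → Q) (T : Finset (Fin m)) :
    ∏ i ∈ T, tpl v S γ i = (∏ p ∈ od v S γ T, p) *
      (∏ p ∈ S, p ^ ((T.filter fun i => v (γ p) i = 1).card / 2)) ^ 2 := by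
  have h1 : ∏ i ∈ T, tpl v S γ i = ∏ p ∈ S, p ^ (T.filter fun i => v (γ p) i = 1).card := by
    unfold tpl
    simp only [prod_filter]
    rw [prod_comm]
    refine prod_congr rfl fun p _ => ?_
    rw [prod_ite, prod_const, prod_const_one, mul_one]
  rw [h1]
  unfold od
  rw [prod_filter, ← prod_pow, ← prod_mul_distrib]
  refine prod_congr rfl fun p _ => ?_
  rw [← pow_mul]
  by_cases h : Odd (T.filter fun i => v (γ p) i = 1).card
  · rw [if_pos ((sum_z2 T _).2 h), ← pow_succ']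
    congr 1
    obtain ⟨k, hk⟩ := h
    omega
  · rw [if_neg (fun h' => h ((sum_z2 T _).1 h')), one_mul]
    congr 1
    rw [Nat.not_odd_iff_even] at h
    obtain ⟨k, hk⟩ := h
    omega

theorem sfp_tpl {v : Q → Fin m → ZMod 2} {S : Finset ℕ} {γ : ℕ → Q} (hS : ∀ p ∈ S, p.Prime)
    (T : Finset (Fin m)) : sfp (∏ i ∈ T, tpl v S γ i) = ∏ p ∈ od v S γ T, p := by
  rw [prod_tpl]
  refine sfp_mul_sq (prod_pf fun p hp => hS p (mem_filter.1 hp).1).2 ?_
  exact prod_ne_zero_iff.2 fun p hp => pow_ne_zero _ (hS p hp).ne_zero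

theorem sq_iff {v : Q → Fin m → ZMod 2} {S : Finset ℕ} {γ : ℕ → Q} (hS : ∀ p ∈ S, p.Prime)
    (T : Finset (Fin m)) : IsSquare (∏ i ∈ T, tpl v S γ i) ↔ od v S γ T = ∅ := by
  have hs0 : ∏ p ∈ S, p ^ ((T.filter fun i => v (γ p) i = 1).card / 2) ≠ 0 :=
    prod_ne_zero_iff.2 fun p hp => pow_ne_zero _ (hS p hp).ne_zero
  have hpf := prod_pf (S := od v S γ T) fun p hp => hS p (mem_filter.1 hp).1
  constructor
  · rintro ⟨a, ha⟩
    have ha' : 1 * a ^ 2 = (∏ p ∈ od v S γ T, p) *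
        (∏ p ∈ S, p ^ ((T.filter fun i => v (γ p) i = 1).card / 2)) ^ 2 := by
      rw [← prod_tpl, ha]
      ring
    have ha0 : a ≠ 0 := by
      rintro rfl
      have : (∏ p ∈ od v S γ T, p) *
        (∏ p ∈ S, p ^ ((T.filter fun i => v (γ p) i = 1).card / 2)) ^ 2 ≠ 0 :=
        mul_ne_zero hpf.2.ne_zero (pow_ne_zero 2 hs0)
      apply this
      rw [← ha']
      ring
    have h1 := Pool.Agent.N856.JL.sq_uniq squarefree_one hpf.2 ha0 hs0 ha'
    rw [← hpf.1, ← h1, Nat.primeFactors_one]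
  · intro h
    rw [prod_tpl, h, prod_empty, one_mul]
    exact ⟨_, sq _⟩

end tpl

end Pool.Agent.N869.ZE.A
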