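import Pool.Agent.N869.ZE.A.Cov

/-!
# Project ZE, part A: the fields
-/

set_option autoImplicit false
set_option linter.unusedSectionVars false
set_option linter.unusedVariables false

open scoped Classical

namespace Pool.Agent.N869.ZE.A

open Finset Filter Topology
open Pool.Agent.N973.ND (uu)
open Pool.Agent.N916.GB (Po SA Gd)
open Pool.Agent.N969.P15 (Qc)
open Pool.Agent.N856.JL (sfp)
open Pool.Agent.N869.QT.L (c2 Fam)
open Pool.Agent.N869.QT.G (sys exC pr Dep)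
open Pool.Agent.N869.ZE

theorem sum_mul_z2 {S : Finset ℕ} (f g : ℕ → ZMod 2) :
    ∑ p ∈ S, f p * g p = ∑ p ∈ S.filter (fun p => f p = 1), g p := by
  rw [sum_filter]
  refine sum_congr rfl fun p _ => ?_
  have : f p = 0 ∨ f p = 1 := by
    generalize f p = z
    revert z
    decide
  rcases this with h | h
  · rw [h, zero_mul, if_neg (by decide)]
  · rw [h, one_mul, if_pos rfl]

/-- the sum of the labels over a system -/
theorem sum_od {Q : Type} {m : ℕ} {v : Q → Fin m → ZMod 2} {t : Fin m → Fin 3 → ZMod 2}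
    {S : Finset ℕ} {γ : ℕ → Q} (h : ∀ i j, ∑ p ∈ S, v (γ p) i * lb p j = t i j)
    (T : Finset (Fin m)) (j : Fin 3) : ∑ p ∈ od v S γ T, lb p j = ∑ i ∈ T, t i j := by
  unfold od
  rw [← sum_mul_z2 (fun p => ∑ i ∈ T, v (γ p) i) fun p => lb p j]
  simp only [sum_mul]
  rw [sum_comm]
  exact sum_congr rfl fun i _ => h i j

theorem cop30 {f n : ℕ} (h : f.Coprime (30 * n)) : C30 f ∧ f.Coprime n := by
  have h1 : ∀ q : ℕ, q.Prime → q ∣ 30 * n → ¬ q ∣ f := fun q hq hq1 hq2 => by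
    have := Nat.dvd_gcd hq2 hq1
    rw [Nat.coprime_iff_gcd_eq_one.1 h] at this
    exact hq.one_lt.ne' (Nat.dvd_one.1 this)
  have h2 := h1 2 (by norm_num) ⟨15 * n, by ring⟩
  have h3 := h1 3 (by norm_num) ⟨10 * n, by ring⟩
  have h5 := h1 5 (by norm_num) ⟨6 * n, by ring⟩
  refine ⟨⟨by omega, fun h => h3 (by omega), fun h => h5 (by omega)⟩, ?_⟩
  exact Nat.Coprime.coprime_mul_left_right h

theorem not_bad {f n : ℕ} (hf : Squarefree f) (h : f.Coprime (30 * n)) :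
    ∀ p ∈ f.primeFactors, p ∉ bd n := by
  obtain ⟨h1, h2⟩ := cop30 h
  rintro p hp (h3 | h3 | h3)
  · have := (c30_of h1 p hp).2.1
    omega
  · have := (c30_of h1 p hp).2.2
    omega
  · have h4 := Nat.dvd_gcd (Nat.dvd_of_mem_primeFactors hp) h3
    rw [Nat.coprime_iff_gcd_eq_one.1 h2] at h4
    exact (Nat.prime_of_mem_primeFactors hp).one_lt.ne' (Nat.dvd_one.1 h4)

/-- the discriminants -/
def Dsc (d : ℕ) : Prop := Squarefree d ∧ d % 12 = 1 ∧ (d % 5 = 1 ∨ d % 5 = 4)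

/-- the numbers of the curves -/
def Tws (n : ℕ) : Prop := Squarefree n ∧ (n % 60 = 23 ∨ n % 60 = 47)

/-- independence modulo squares -/
def Indp {r : ℕ} (d : Fin r → ℕ) : Prop := ∀ T : Finset (Fin r), T.Nonempty → ¬ IsSquare (∏ i ∈ T, d i)

/-- the tuples of the fields of conductor `f` -/
def famF (r f : ℕ) : Set (Fin r → ℕ) :=
  {d | (∀ i, Dsc (d i)) ∧ Indp d ∧ ∀ p : ℕ, p.Prime → (p ∣ f ↔ ∃ i, p ∣ d i)}

/-- the good tuples -/
def goodF (n₀ : ℕ) {r : ℕ} (𝒯 : Finset (Finset (Fin r))) (d : Fin r → ℕ) : Prop :=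
  ∀ T ∈ 𝒯, Qc (n₀ * sfp (∏ i ∈ T, d i))

section fields

variable {n : ℕ}

theorem tpl_sub {Q : Type} {m : ℕ} {v : Q → Fin m → ZMod 2} {f : ℕ} {γ : ℕ → Q} {i : Fin m} {p : ℕ}
    (hp : p.Prime) (h : p ∣ tpl v f.primeFactors γ i) : p ∈ f.primeFactors ∧ v (γ p) i = 1 := by
  have hS : ∀ p ∈ f.primeFactors, p.Prime := fun p hp => Nat.prime_of_mem_primeFactors hp
  have h1 := tpl_pf (v := v) (γ := γ) (i := i) hS
  have h2 : p ∈ (tpl v f.primeFactors γ i).primeFactors :=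
    Nat.mem_primeFactors.2 ⟨hp, h, h1.2.ne_zero⟩
  rw [h1.1, mem_filter] at h2
  exact h2

theorem dsc_tpl {Q : Type} {m : ℕ} {v : Q → Fin m → ZMod 2} {f : ℕ} {γ : ℕ → Q} {i : Fin m}
    (h30 : C30 f) : Dsc (tpl v f.primeFactors γ i) ↔
      ∀ j, ∑ p ∈ f.primeFactors, v (γ p) i * lb p j = 0 := by
  have hS : ∀ p ∈ f.primeFactors, p.Prime := fun p hp => Nat.prime_of_mem_primeFactors hp
  have h1 := tpl_pf (v := v) (γ := γ) (i := i) hS
  have h2 : C30 (tpl v f.primeFactors γ i) :=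
    c30_prod fun p hp => c30_of h30 p (mem_filter.1 hp).1
  have h3 := disc_iff h1.2 h2
  rw [h1.1] at h3
  unfold Dsc
  constructor
  · rintro ⟨-, h4⟩ j
    rw [sum_mul_z2 (fun p => v (γ p) i) fun p => lb p j]
    exact h3.1 h4 j
  · intro h4
    refine ⟨h1.2, h3.2 fun j => ?_⟩
    rw [← sum_mul_z2 (fun p => v (γ p) i) fun p => lb p j]
    exact h4 j

theorem tws_tpl {Q : Type} {m : ℕ} {v : Q → Fin m → ZMod 2} {f : ℕ} {γ : ℕ → Q} {i : Fin m}
    (h30 : C30 f) : Tws (tpl v f.primeFactors γ i) ↔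
      ∀ j, ∑ p ∈ f.primeFactors, v (γ p) i * lb p j = 1 := by
  have hS : ∀ p ∈ f.primeFactors, p.Prime := fun p hp => Nat.prime_of_mem_primeFactors hp
  have h1 := tpl_pf (v := v) (γ := γ) (i := i) hS
  have h2 : C30 (tpl v f.primeFactors γ i) :=
    c30_prod fun p hp => c30_of h30 p (mem_filter.1 hp).1
  have h3 := twist_iff h1.2 h2
  rw [h1.1] at h3
  unfold Tws
  constructor
  · rintro ⟨-, h4⟩ j
    rw [sum_mul_z2 (fun p => v (γ p) i) fun p => lb p j]
    exact h3.1 h4 j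
  · intro h4
    refine ⟨h1.2, h3.2 fun j => ?_⟩
    rw [← sum_mul_z2 (fun p => v (γ p) i) fun p => lb p j]
    exact h4 j

theorem sys_od {I Q : Type} {m : ℕ} {E : I → Finset Q} {v : Q → Fin m → ZMod 2} {S : Finset ℕ}
    {γ : ℕ → Q} {a : I} {T : Finset (Fin m)} (h : ∀ q, q ∈ E a ↔ ∑ i ∈ T, v q i = 1) :
    sys γ E S a = od v S γ T := by
  ext p
  unfold od
  rw [mem_sys, h]
  simp only [mem_filter]

/-- the main theorem for the fields, in terms of `Qc` -/
theorem fields (hc : 0 ≤ c2 ∧ c2 ≤ 1) (hAK : S_ASYK) (hSQ : S_SQ2) (hM : ManyS) (hn : 2 ≤ n)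
    {n₀ : ℕ} (hn0 : Tws n₀) (𝒯 : Finset (Finset (Fin n))) (h𝒯 : ∀ T ∈ 𝒯, T.Nonempty) {δ₀ : ℝ}
    (hδ₀ : 0 < δ₀)
    (i1 : DecidablePred fun f : ℕ => (Squarefree f ∧ f.Coprime (30 * n₀)) ∧
      ((famF n f).Finite ∧ 0 < (famF n f).ncard ∧
        |({d ∈ famF n f | goodF n₀ 𝒯 d}.ncard : ℝ) / ((famF n f).ncard : ℝ) - c2 ^ 𝒯.card| ≤ δ₀))
    (i2 : DecidablePred fun f : ℕ => Squarefree f ∧ f.Coprime (30 * n₀)) :
    Tendsto (fun X : ℕ => ((@Finset.filter ℕ (fun f => (Squarefree f ∧ f.Coprime (30 * n₀)) ∧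
      ((famF n f).Finite ∧ 0 < (famF n f).ncard ∧
        |({d ∈ famF n f | goodF n₀ 𝒯 d}.ncard : ℝ) / ((famF n f).ncard : ℝ) - c2 ^ 𝒯.card| ≤
          δ₀)) i1 (Icc 1 X)).card : ℝ) /
      ((@Finset.filter ℕ (fun f => Squarefree f ∧ f.Coprime (30 * n₀)) i2 (Icc 1 X)).card : ℝ))
      atTop (𝓝 1) := by
  have : Fact (2 ≤ n) := ⟨hn⟩
  obtain ⟨δ, hδ, hδ1, hδ2⟩ : ∃ δ : ℝ, 0 < δ ∧ δ ≤ 1 / 2 ∧ 6 * δ ≤ δ₀ := by
    refine ⟨min (δ₀ / 6) (1 / 2), lt_min (by positivity) (by norm_num), min_le_right _ _, ?_⟩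
    have := min_le_left (δ₀ / 6) (1 / 2)
    linarith
  refine final hAK hSQ (DF hM hn hn0.1 hn0.2 𝒯 h𝒯) (Nat.pos_of_ne_zero hn0.1.ne_zero)
    (fun f hf hfc => not_bad hf hfc) hδ ?_ i1 i2
  intro f hf hfc hE
  obtain ⟨h30, hcn⟩ := cop30 hfc
  have hS : ∀ p ∈ f.primeFactors, p.Prime := fun p hp => Nat.prime_of_mem_primeFactors hp
  have hvinj : Function.Injective fun q : QF n => q.1 := fun _ _ h => Subtype.ext h
  have hn1 := (twist_iff hn0.1 (twist_c30 hn0.2)).1 hn0.2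
  have key := close_of hc (DF hM hn hn0.1 hn0.2 𝒯 h𝒯) (S := f.primeFactors)
    (enc := fun c => tpl (fun q : QF n => q.1) f.primeFactors (exC f.primeFactors c))
    (tpl_inj hvinj hS) (fam := famF n f) ?_ ?_ (good := goodF n₀ 𝒯) ?_ hδ hδ1 hE
  · rw [Fintype.card_coe] at key
    exact ⟨key.1, key.2.1, key.2.2.trans hδ2⟩
  · -- surjectivity
    rintro d ⟨h1, h2, h3⟩
    refine tpl_surj hS (fun i => (h1 i).1) (fun i p hp => ?_) fun p hp => ?_
    · have hp' := Nat.mem_primeFactors.1 hp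
      exact Nat.mem_primeFactors.2 ⟨hp'.1, (h3 p hp'.1).2 ⟨i, hp'.2.1⟩, hf.ne_zero⟩
    · obtain ⟨i, hi⟩ := (h3 p (hS p hp)).1 (Nat.dvd_of_mem_primeFactors hp)
      refine ⟨⟨fun i => if p ∣ d i then 1 else 0, fun h => ?_⟩, fun i => ?_⟩
      · have := congrFun h i
        rw [if_pos hi, Pi.zero_apply] at this
        exact absurd this (by decide)
      · show (if p ∣ d i then (1 : ZMod 2) else 0) = 1 ↔ p ∣ d i
        split_ifs with h
        · exact ⟨fun _ => h, fun _ => rfl⟩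
        · exact ⟨fun h' => absurd h' (by decide), fun h' => absurd h' h⟩
  · -- the class
    intro c
    set γ := exC f.primeFactors c with hγ
    have e0 : ∀ a : {T : Finset (Fin n) // T.Nonempty},
        sys γ (DF hM hn hn0.1 hn0.2 𝒯 h𝒯).E' f.primeFactors a =
          od (fun q : QF n => q.1) f.primeFactors γ a.1 := fun a => sys_od fun q => mem_EF
    have e1 : (∃ a : {T : Finset (Fin n) // T.Nonempty},
        sys γ (DF hM hn hn0.1 hn0.2 𝒯 h𝒯).E' f.primeFactors a = ∅) ↔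
        ¬ Indp (tpl (fun q : QF n => q.1) f.primeFactors γ) := by
      unfold Indp
      push Not
      constructor
      · rintro ⟨a, ha⟩
        exact ⟨a.1, a.2, (sq_iff hS a.1).2 ((e0 a).symm.trans ha)⟩
      · rintro ⟨T, hT, h⟩
        exact ⟨⟨T, hT⟩, (e0 ⟨T, hT⟩).trans ((sq_iff hS T).1 h)⟩
    rw [e1, not_not]
    have e2 : (DF hM hn hn0.1 hn0.2 𝒯 h𝒯).C f.primeFactors γ ↔
        ∀ i, Dsc (tpl (fun q : QF n => q.1) f.primeFactors γ i) := by
      constructor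
      · rintro ⟨-, h⟩ i
        exact (dsc_tpl h30).2 fun j => h i j
      · intro h
        exact ⟨not_bad hf hfc, fun i j => (dsc_tpl h30).1 (h i) j⟩
    rw [e2]
    constructor
    · rintro ⟨h1, h2, -⟩
      exact ⟨h1, h2⟩
    · rintro ⟨h1, h2⟩
      refine ⟨h1, h2, fun p hp => ⟨fun hpf => ?_, fun ⟨i, hi⟩ => ?_⟩⟩
      · have hpS : p ∈ f.primeFactors := Nat.mem_primeFactors.2 ⟨hp, hpf, hf.ne_zero⟩
        have h3 := (γ p).2
        have h4 : ∃ i, (γ p).1 i ≠ 0 := by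
          by_contra hcon
          push Not at hcon
          exact h3 (funext fun i => hcon i)
        obtain ⟨i, hi⟩ := h4
        refine ⟨i, (dvd_tpl hS hpS).2 ?_⟩
        show (γ p).1 i = 1
        revert hi
        generalize (γ p).1 i = z
        revert z
        decide
      · exact Nat.dvd_of_mem_primeFactors (tpl_sub hp hi).1
  · -- the good tuples
    intro c hC
    set γ := exC f.primeFactors c with hγ
    obtain ⟨-, hC⟩ := hC
    have e3 : ∀ T : Finset (Fin n), Qc (n₀ * sfp (∏ i ∈ T, tpl (fun q : QF n => q.1)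
        f.primeFactors γ i)) ↔ GdF n₀.primeFactors (od (fun q : QF n => q.1) f.primeFactors γ T) := by
      intro T
      rw [sfp_tpl hS T]
      set U := od (fun q : QF n => q.1) f.primeFactors γ T with hU
      have hUS : ∀ p ∈ U, p ∈ f.primeFactors := fun p hp => (mem_filter.1 hp).1
      obtain ⟨hpf, hsq⟩ := prod_pf fun p hp => hS p (hUS p hp)
      have hcop : n₀.Coprime (∏ p ∈ U, p) := Nat.Coprime.prod_right fun p hp =>
        Nat.Coprime.symm (Nat.Coprime.coprime_dvd_left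
          (Nat.dvd_of_mem_primeFactors (hUS p hp)) hcn)
      have h4 : (∏ p ∈ U, p) % 4 = 1 := by
        have h5 := (cls_prod fun p hp => c30_of h30 p (hUS p hp)).1
        have h6 : ∑ p ∈ U, lb p 0 = 0 := by
          have := sum_od (v := fun q : QF n => q.1) (t := fun _ _ => 0) hC T 0
          rw [hU, this]
          exact sum_const_zero
        rcases h5 with h5 | h5
        · exact h5.1
        · rw [h5.2] at h6
          exact absurd h6 (by decide)
      have h7 : (n₀ * ∏ p ∈ U, p) % 4 = 3 := by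
        have h8 : n₀ % 4 = 3 := by
          rcases hn0.2 with h | h <;> omega
        rw [Nat.mul_mod, h4, h8]
      have h8 := Pool.Agent.N916.GB.Gd_iff_Qc ((Nat.squarefree_mul hcop).2 ⟨hn0.1, hsq⟩) h7
      rw [← h8]
      unfold GdF
      rw [Nat.primeFactors_mul hn0.1.ne_zero hsq.ne_zero, hpf, union_comm]
    have e4 : ∀ a : 𝒯, sys γ (DF hM hn hn0.1 hn0.2 𝒯 h𝒯).E f.primeFactors a =
        od (fun q : QF n => q.1) f.primeFactors γ a.1 := fun a => sys_od fun q => mem_EF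
    have e5 : (∀ a : 𝒯, GdF (DF hM hn hn0.1 hn0.2 𝒯 h𝒯).F
        (sys γ (DF hM hn hn0.1 hn0.2 𝒯 h𝒯).E f.primeFactors a)) ↔
        ∀ a : 𝒯, GdF n₀.primeFactors (od (fun q : QF n => q.1) f.primeFactors γ a.1) :=
      forall_congr' fun a => by rw [e4 a]; rfl
    rw [e5]
    constructor
    · intro h a
      exact (e3 a.1).1 (h a.1 a.2)
    · intro h T hT
      exact (e3 T).2 (h ⟨T, hT⟩)

end fields

end Pool.Agent.N869.ZE.A
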