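import Pool.Agent.N869.ZE.A.TrF

/-!
# Project ZE, part A: the pairs of a curve and a field
-/

set_option autoImplicit false
set_option linter.unusedSectionVars false
set_option linter.unusedVariables false

open scoped Classical

namespace Pool.Agent.N869.ZE.A

open Finset Filter Topology
open Pool.Agent.N973.ND (uu)
open Pool.Agent.N916.GB (Po SA Gd)
open Pool.Agent.N969.P15 (Qc)
open Pool.Agent.N856.JL (sfp)
open Pool.Agent.N869.QT.L (c2 Fam)
open Pool.Agent.N869.QT.G (sys exC pr Dep)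
open Pool.Agent.N869.ZE

/-- the pairs `(D, d)` supported on `f`; `b` says that every prime divisor of `f` occurs -/
def famP (b : Bool) (n f : ℕ) : Set (ℕ × (Fin n → ℕ)) :=
  {x | Tws x.1 ∧ (∀ i, Dsc (x.2 i)) ∧ Indp x.2 ∧ (∀ i, x.1.Coprime (x.2 i)) ∧
    (∀ p : ℕ, p.Prime → (p ∣ x.1 ∨ ∃ i, p ∣ x.2 i) → p ∣ f) ∧
    (b = true → ∀ p : ℕ, p.Prime → p ∣ f → p ∣ x.1 ∨ ∃ i, p ∣ x.2 i)}

/-- the good pairs -/
def goodP {n : ℕ} (𝒯 : Finset (Finset (Fin n))) (x : ℕ × (Fin n → ℕ)) : Prop :=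
  ∀ T ∈ 𝒯, Qc (x.1 * sfp (∏ i ∈ T, x.2 i))

section pairs

variable {n : ℕ} {b : Bool}

/-- the coordinates of the colours -/
def vP (b : Bool) (n : ℕ) (q : QP b n) : Fin (n + 1) → ZMod 2 := q.1

/-- the coordinates of the colours of the fields -/
def vQ (b : Bool) (n : ℕ) (q : QP b n) (i : Fin n) : ZMod 2 := q.1 i.succ

theorem tpl_succ (S : Finset ℕ) (γ : ℕ → QP b n) (i : Fin n) :
    tpl (vP b n) S γ i.succ = tpl (vQ b n) S γ i := rfl

/-- the pair of a colouring -/
noncomputable def encP (S : Finset ℕ) (c : S → QP b n) : ℕ × (Fin n → ℕ) :=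
  (tpl (vP b n) S (exC S c) 0, tpl (vQ b n) S (exC S c))

theorem encP_inj {S : Finset ℕ} (hS : ∀ p ∈ S, p.Prime) :
    Function.Injective fun c : S → QP b n => encP S c := by
  intro c c' h
  have hv : Function.Injective (vP b n) := fun _ _ h => Subtype.ext h
  refine tpl_inj hv hS (funext fun i => ?_)
  have h' : encP S c = encP S c' := h
  unfold encP at h'
  rw [Prod.mk.injEq] at h'
  refine Fin.cases h'.1 (fun i => ?_) i
  exact congrFun h'.2 i

theorem z01 (z : ZMod 2) (h : z ≠ 1) : z = 0 := by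
  revert z
  decide

/-- the primes of the twist by `D ∏_{i ∈ T} d_i` -/
theorem prodP {S : Finset ℕ} (hS : ∀ p ∈ S, p.Prime) (γ : ℕ → QP b n) (T : Finset (Fin n)) :
    tpl (vP b n) S γ 0 * sfp (∏ i ∈ T, tpl (vQ b n) S γ i) =
      ∏ p ∈ S.filter (fun p => (γ p).1 0 + ∑ i ∈ T, (γ p).1 i.succ = 1), p := by
  rw [sfp_tpl hS T]
  unfold tpl od
  rw [← prod_union]
  · refine prod_congr ?_ fun _ _ => rfl
    ext p
    rw [mem_union, mem_filter, mem_filter, mem_filter, ← and_or_left]
    refine and_congr_right fun _ => ?_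
    show ((γ p).1 0 = 1 ∨ ∑ i ∈ T, (γ p).1 i.succ = 1) ↔ _
    rcases (γ p).2.1 with h | h
    · rw [h, zero_add]
      constructor
      · rintro (h1 | h1)
        · exact absurd h1 (by decide)
        · exact h1
      · intro h1
        exact Or.inr h1
    · have h1 : ∑ i ∈ T, (γ p).1 i.succ = 0 := sum_eq_zero fun i _ => h i
      rw [h1, add_zero]
      constructor
      · rintro (h1 | h1)
        · exact h1
        · exact absurd h1 (by decide)
      · intro h1
        exact Or.inl h1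
  · rw [Finset.disjoint_left]
    intro p hp hp'
    rw [mem_filter] at hp hp'
    have h1 : (γ p).1 0 = 1 := hp.2
    have h2 : ∑ i ∈ T, (γ p).1 i.succ = 1 := hp'.2
    rcases (γ p).2.1 with h | h
    · rw [h] at h1
      exact absurd h1 (by decide)
    · rw [sum_eq_zero fun i _ => h i] at h2
      exact absurd h2 (by decide)

theorem famP_surj {f : ℕ} (hf : Squarefree f) {x : ℕ × (Fin n → ℕ)} (hx : x ∈ famP b n f) :
    ∃ c : f.primeFactors → QP b n, encP f.primeFactors c = x := by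
  obtain ⟨h1, h2, h3, h4, h5, h6⟩ := hx
  have hS : ∀ p ∈ f.primeFactors, p.Prime := fun p hp => Nat.prime_of_mem_primeFactors hp
  obtain ⟨c, hc⟩ := tpl_surj (v := vP b n) hS (x := Fin.cons x.1 x.2) (fun i => by
      refine Fin.cases ?_ (fun i => ?_) i
      · rw [Fin.cons_zero]
        exact h1.1
      · rw [Fin.cons_succ]
        exact (h2 i).1) (fun i => by
      refine Fin.cases ?_ (fun i => ?_) i
      · rw [Fin.cons_zero]
        intro p hp
        have hp' := Nat.mem_primeFactors.1 hp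
        exact Nat.mem_primeFactors.2 ⟨hp'.1, h5 p hp'.1 (Or.inl hp'.2.1), hf.ne_zero⟩
      · rw [Fin.cons_succ]
        intro p hp
        have hp' := Nat.mem_primeFactors.1 hp
        exact Nat.mem_primeFactors.2 ⟨hp'.1, h5 p hp'.1 (Or.inr ⟨i, hp'.2.1⟩), hf.ne_zero⟩)
    (fun p hp => by
      have hpp := hS p hp
      set w : Fin (n + 1) → ZMod 2 := fun i =>
        if p ∣ (Fin.cons x.1 x.2 : Fin (n + 1) → ℕ) i then 1 else 0 with hw
      have hwi : ∀ i, w i = 1 ↔ p ∣ (Fin.cons x.1 x.2 : Fin (n + 1) → ℕ) i := by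
        intro i
        show (if p ∣ (Fin.cons x.1 x.2 : Fin (n + 1) → ℕ) i then (1 : ZMod 2) else 0) = 1 ↔ _
        split_ifs with h
        · exact ⟨fun _ => h, fun _ => rfl⟩
        · exact ⟨fun h' => absurd h' (by decide), fun h' => absurd h' h⟩
      refine ⟨⟨w, ?_, ?_⟩, hwi⟩
      · by_cases h0 : p ∣ x.1
        · right
          intro i
          refine z01 _ fun h => ?_
          rw [hwi i.succ, Fin.cons_succ] at h
          have h7 := Nat.dvd_gcd h0 h
          rw [Nat.coprime_iff_gcd_eq_one.1 (h4 i)] at h7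
          exact hpp.one_lt.ne' (Nat.dvd_one.1 h7)
        · left
          refine z01 _ fun h => ?_
          rw [hwi 0, Fin.cons_zero] at h
          exact h0 h
      · intro hb hw0
        rcases h6 hb p hpp (Nat.dvd_of_mem_primeFactors hp) with h | ⟨i, h⟩
        · have h7 := (hwi 0).2 (by rw [Fin.cons_zero]; exact h)
          rw [hw0, Pi.zero_apply] at h7
          exact absurd h7 (by decide)
        · have h7 := (hwi i.succ).2 (by rw [Fin.cons_succ]; exact h)
          rw [hw0, Pi.zero_apply] at h7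
          exact absurd h7 (by decide))
  refine ⟨c, ?_⟩
  unfold encP
  refine Prod.ext ?_ ?_
  · show tpl (vP b n) f.primeFactors (exC f.primeFactors c) 0 = x.1
    rw [hc, Fin.cons_zero]
  · funext i
    show tpl (vQ b n) f.primeFactors (exC f.primeFactors c) i = x.2 i
    rw [← tpl_succ, hc, Fin.cons_succ]

theorem t0 (hM : ManyS) (hn : b = true → 2 ≤ n) (𝒯 : Finset (Finset (Fin n))) (j : Fin 3) :
    (DP hM hn 𝒯).t 0 j = 1 := by
  show (if (0 : Fin (n + 1)) = 0 then (1 : ZMod 2) else 0) = 1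
  exact if_pos rfl

theorem ts (hM : ManyS) (hn : b = true → 2 ≤ n) (𝒯 : Finset (Finset (Fin n))) (i : Fin n)
    (j : Fin 3) : (DP hM hn 𝒯).t i.succ j = 0 := by
  show (if i.succ = (0 : Fin (n + 1)) then (1 : ZMod 2) else 0) = 0
  exact if_neg (Fin.succ_ne_zero i)

/-- the main theorem for the pairs, in terms of `Qc` -/
theorem pairs (hc : 0 ≤ c2 ∧ c2 ≤ 1) (hAK : S_ASYK) (hSQ : S_SQ2) (hM : ManyS)
    (hn : b = true → 2 ≤ n) (𝒯 : Finset (Finset (Fin n))) {δ₀ : ℝ} (hδ₀ : 0 < δ₀)
    (i1 : DecidablePred fun f : ℕ => (Squarefree f ∧ f.Coprime (30 * 1)) ∧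
      ((famP b n f).Finite ∧ 0 < (famP b n f).ncard ∧
        |({x ∈ famP b n f | goodP 𝒯 x}.ncard : ℝ) / ((famP b n f).ncard : ℝ) - c2 ^ 𝒯.card| ≤ δ₀))
    (i2 : DecidablePred fun f : ℕ => Squarefree f ∧ f.Coprime (30 * 1)) :
    Tendsto (fun X : ℕ => ((@Finset.filter ℕ (fun f => (Squarefree f ∧ f.Coprime (30 * 1)) ∧
      ((famP b n f).Finite ∧ 0 < (famP b n f).ncard ∧
        |({x ∈ famP b n f | goodP 𝒯 x}.ncard : ℝ) / ((famP b n f).ncard : ℝ) - c2 ^ 𝒯.card| ≤
          δ₀)) i1 (Icc 1 X)).card : ℝ) /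
      ((@Finset.filter ℕ (fun f => Squarefree f ∧ f.Coprime (30 * 1)) i2 (Icc 1 X)).card : ℝ))
      atTop (𝓝 1) := by
  obtain ⟨δ, hδ, hδ1, hδ2⟩ : ∃ δ : ℝ, 0 < δ ∧ δ ≤ 1 / 2 ∧ 6 * δ ≤ δ₀ := by
    refine ⟨min (δ₀ / 6) (1 / 2), lt_min (by positivity) (by norm_num), min_le_right _ _, ?_⟩
    have := min_le_left (δ₀ / 6) (1 / 2)
    linarith
  refine final hAK hSQ (DP hM hn 𝒯) one_pos
    (fun f hf hfc => not_bad hf hfc) hδ ?_ i1 i2
  intro f hf hfc hE
  obtain ⟨h30, hcn⟩ := cop30 hfc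
  have hS : ∀ p ∈ f.primeFactors, p.Prime := fun p hp => Nat.prime_of_mem_primeFactors hp
  have key := close_of hc (DP hM hn 𝒯) (S := f.primeFactors)
    (enc := fun c => encP f.primeFactors c) (encP_inj hS) (fam := famP b n f) ?_ ?_
    (good := goodP 𝒯) ?_ hδ hδ1 hE
  · rw [Fintype.card_coe] at key
    exact ⟨key.1, key.2.1, key.2.2.trans hδ2⟩
  · intro x hx
    exact famP_surj hf hx
  · -- the class
    intro c
    set γ := exC f.primeFactors c with hγ
    have e0 : ∀ a : {T : Finset (Fin n) // T.Nonempty},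
        sys γ (DP hM hn 𝒯).E' f.primeFactors a =
          od (vQ b n) f.primeFactors γ a.1 := fun a => sys_od fun q => by
      show q ∈ univ.filter (fun q : QP b n => ∑ i ∈ a.1, q.1 i.succ = 1) ↔ _
      rw [mem_filter]
      exact ⟨fun h => h.2, fun h => ⟨mem_univ _, h⟩⟩
    have e1 : (∃ a : {T : Finset (Fin n) // T.Nonempty},
        sys γ (DP hM hn 𝒯).E' f.primeFactors a = ∅) ↔
        ¬ Indp (tpl (vQ b n) f.primeFactors γ) := by
      unfold Indp
      push Not
      constructor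
      · rintro ⟨a, ha⟩
        exact ⟨a.1, a.2, (sq_iff hS a.1).2 ((e0 a).symm.trans ha)⟩
      · rintro ⟨T, hT, h⟩
        exact ⟨⟨T, hT⟩, (e0 ⟨T, hT⟩).trans ((sq_iff hS T).1 h)⟩
    rw [e1, not_not]
    have e2 : (DP hM hn 𝒯).C f.primeFactors γ ↔
        Tws (tpl (vP b n) f.primeFactors γ 0) ∧
        ∀ i, Dsc (tpl (vQ b n) f.primeFactors γ i) := by
      constructor
      · rintro ⟨-, h⟩
        refine ⟨(tws_tpl h30).2 fun j => ?_, fun i => (dsc_tpl h30).2 fun j => ?_⟩
        · have h1 := h 0 j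
          exact h1.trans (t0 hM hn 𝒯 j)
        · have h1 := h i.succ j
          exact h1.trans (ts hM hn 𝒯 i j)
      · rintro ⟨h1, h2⟩
        refine ⟨not_bad hf hfc, fun i j => ?_⟩
        refine Fin.cases ?_ (fun i => ?_) i
        · exact ((tws_tpl h30).1 h1 j).trans (t0 hM hn 𝒯 j).symm
        · exact ((dsc_tpl h30).1 (h2 i) j).trans (ts hM hn 𝒯 i j).symm
    rw [e2]
    show (tpl (vP b n) f.primeFactors γ 0, tpl (vQ b n) f.primeFactors γ) ∈ famP b n f ↔ _
    constructor
    · rintro ⟨h1, h2, h3, -⟩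
      exact ⟨⟨h1, h2⟩, h3⟩
    · rintro ⟨⟨h1, h2⟩, h3⟩
      refine ⟨h1, h2, h3, fun i => ?_, fun p hp h => ?_, fun hb p hp hpf => ?_⟩
      · refine Nat.coprime_of_dvd fun p hp hp0 hpi => ?_
        have g0 := tpl_sub hp hp0
        have g1 := tpl_sub hp hpi
        rcases (γ p).2.1 with h | h
        · have : (γ p).1 0 = 1 := g0.2
          rw [h] at this
          exact absurd this (by decide)
        · have : (γ p).1 i.succ = 1 := g1.2
          rw [h i] at this
          exact absurd this (by decide)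
      · rcases h with h | ⟨i, h⟩
        · exact Nat.dvd_of_mem_primeFactors (tpl_sub hp h).1
        · exact Nat.dvd_of_mem_primeFactors (tpl_sub hp h).1
      · have hpS : p ∈ f.primeFactors := Nat.mem_primeFactors.2 ⟨hp, hpf, hf.ne_zero⟩
        have h4 : ∃ i, (γ p).1 i ≠ 0 := by
          by_contra hcon
          push Not at hcon
          exact (γ p).2.2 hb (funext fun i => hcon i)
        obtain ⟨i, hi⟩ := h4
        have hi' : (γ p).1 i = 1 := by
          revert hi
          generalize (γ p).1 i = z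
          revert z
          decide
        revert hi'
        refine Fin.cases (fun hi' => ?_) (fun i hi' => ?_) i
        · exact Or.inl ((dvd_tpl hS hpS).2 hi')
        · exact Or.inr ⟨i, (dvd_tpl (v := vQ b n) hS hpS).2 hi'⟩
  · -- the good pairs
    intro c hC
    set γ := exC f.primeFactors c with hγ
    obtain ⟨-, hC⟩ := hC
    have e4 : ∀ a : 𝒯, sys γ (DP hM hn 𝒯).E f.primeFactors a =
        f.primeFactors.filter (fun p => (γ p).1 0 + ∑ i ∈ a.1, (γ p).1 i.succ = 1) := by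
      intro a
      ext p
      rw [mem_sys, mem_filter]
      exact and_congr_right fun _ => mem_EP
    have e3 : ∀ T : Finset (Fin n), Qc (tpl (vP b n) f.primeFactors γ 0 *
        sfp (∏ i ∈ T, tpl (vQ b n) f.primeFactors γ i)) ↔
        GdF ∅ (f.primeFactors.filter
          (fun p => (γ p).1 0 + ∑ i ∈ T, (γ p).1 i.succ = 1)) := by
      intro T
      rw [prodP hS γ T]
      set U := f.primeFactors.filter
        (fun p => (γ p).1 0 + ∑ i ∈ T, (γ p).1 i.succ = 1) with hU
      have hUS : ∀ p ∈ U, p ∈ f.primeFactors := fun p hp => (mem_filter.1 hp).1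
      obtain ⟨hpf, hsq⟩ := prod_pf fun p hp => hS p (hUS p hp)
      have h4 : (∏ p ∈ U, p) % 4 = 3 := by
        have h5 := (cls_prod fun p hp => c30_of h30 p (hUS p hp)).1
        have h6 : ∑ p ∈ U, lb p 0 = 1 := by
          rw [hU, ← sum_mul_z2 (fun p => (γ p).1 0 + ∑ i ∈ T, (γ p).1 i.succ) fun p => lb p 0]
          simp only [add_mul, sum_mul]
          rw [sum_add_distrib, sum_comm]
          have g0 : ∑ p ∈ f.primeFactors, (γ p).1 0 * lb p 0 = 1 := (hC 0 0).trans (t0 hM hn 𝒯 0)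
          have g1 : ∑ i ∈ T, ∑ p ∈ f.primeFactors, (γ p).1 i.succ * lb p 0 = 0 :=
            sum_eq_zero fun i _ => (hC i.succ 0).trans (ts hM hn 𝒯 i 0)
          rw [g0, g1, add_zero]
        rcases h5 with h5 | h5
        · rw [h5.2] at h6
          exact absurd h6 (by decide)
        · exact h5.1
      rw [← Pool.Agent.N916.GB.Gd_iff_Qc hsq h4, hpf]
      unfold GdF
      rw [union_empty]
    have e5 : (∀ a : 𝒯, GdF (DP hM hn 𝒯).F
        (sys γ (DP hM hn 𝒯).E f.primeFactors a)) ↔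
        ∀ a : 𝒯, GdF ∅ (f.primeFactors.filter
          (fun p => (γ p).1 0 + ∑ i ∈ a.1, (γ p).1 i.succ = 1)) :=
      forall_congr' fun a => by rw [e4 a]; rfl
    rw [e5]
    constructor
    · intro h a
      exact (e3 a.1).1 (h a.1 a.2)
    · intro h T hT
      exact (e3 T).2 (h ⟨T, hT⟩)

end pairs

end Pool.Agent.N869.ZE.A
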